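import Mathlib
import Pool.Agent.Helper902.NAJames

/-!
James's theorem: on a nonreflexive real Banach space some continuous linear functional does not
attain its norm.  The proof is the one of James (1972).
-/

set_option autoImplicit false

namespace Pool.Agent.TH327.JS

open Filter Topology Set

variable {X : Type*} [NormedAddCommGroup X] [NormedSpace ℝ X]

/-- convex hull of a tail -/
def C (h : ℕ → StrongDual ℝ X) (n : ℕ) : Set (StrongDual ℝ X) := convexHull ℝ (h '' Set.Ici n)

theorem C_anti (h : ℕ → StrongDual ℝ X) {m n : ℕ} (hmn : m ≤ n) : C h n ⊆ C h m :=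
  convexHull_mono (image_mono (Set.Ici_subset_Ici.2 hmn))

theorem C_self (h : ℕ → StrongDual ℝ X) (n : ℕ) : h n ∈ C h n :=
  subset_convexHull ℝ _ ⟨n, Set.mem_Ici.2 le_rfl, rfl⟩

theorem C_convex (h : ℕ → StrongDual ℝ X) (n : ℕ) : Convex ℝ (C h n) := convex_convexHull ℝ _

/-- `h'` is a sequence of convex blocks of `h` -/
def Blk (h' h : ℕ → StrongDual ℝ X) : Prop := ∀ k, h' k ∈ C h k

theorem Blk.sub {h' h : ℕ → StrongDual ℝ X} (hb : Blk h' h) (n : ℕ) : C h' n ⊆ C h n := by
  refine convexHull_min ?_ (C_convex h n)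
  rintro _ ⟨k, hk, rfl⟩
  exact C_anti h hk (hb k)

theorem Blk.refl (h : ℕ → StrongDual ℝ X) : Blk h h := fun k => C_self h k

theorem Blk.trans {h'' h' h : ℕ → StrongDual ℝ X} (h1 : Blk h'' h') (h2 : Blk h' h) : Blk h'' h :=
  fun k => h2.sub k (h1 k)

theorem C_norm {h : ℕ → StrongDual ℝ X} (hn : ∀ k, ‖h k‖ ≤ 1) {n : ℕ} {v : StrongDual ℝ X}
    (hv : v ∈ C h n) : ‖v‖ ≤ 1 := by
  have : C h n ⊆ Metric.closedBall (0 : StrongDual ℝ X) 1 := by
    refine convexHull_min ?_ (convex_closedBall _ _)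
    rintro _ ⟨k, -, rfl⟩
    simpa using hn k
  simpa using this hv

theorem C_le {h : ℕ → StrongDual ℝ X} {n : ℕ} {v : StrongDual ℝ X} (hv : v ∈ C h n) (x : X) (c : ℝ)
    (hc : ∀ k, n ≤ k → h k x ≤ c) : v x ≤ c := by
  have : C h n ⊆ {φ : StrongDual ℝ X | φ x ≤ c} := by
    refine convexHull_min ?_ ?_
    · rintro _ ⟨k, hk, rfl⟩
      exact hc k hk
    · intro φ hφ ψ hψ a b ha hb hab
      simp only [mem_ofPred_eq] at hφ hψ ⊢
      change a * φ x + b * ψ x ≤ c
      have e : c = a * c + b * c := by rw [← add_mul, hab, one_mul]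
      have e1 := mul_le_mul_of_nonneg_left hφ ha
      have e2 := mul_le_mul_of_nonneg_left hψ hb
      linarith
  exact this hv

theorem C_ge {h : ℕ → StrongDual ℝ X} {n : ℕ} {v : StrongDual ℝ X} (hv : v ∈ C h n) (x : X) (c : ℝ)
    (hc : ∀ k, n ≤ k → c ≤ h k x) : c ≤ v x := by
  have : C h n ⊆ {φ : StrongDual ℝ X | c ≤ φ x} := by
    refine convexHull_min ?_ ?_
    · rintro _ ⟨k, hk, rfl⟩
      exact hc k hk
    · intro φ hφ ψ hψ a b ha hb hab
      simp only [mem_ofPred_eq] at hφ hψ ⊢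
      change c ≤ a * φ x + b * ψ x
      have e : c = a * c + b * c := by rw [← add_mul, hab, one_mul]
      have e1 := mul_le_mul_of_nonneg_left hφ ha
      have e2 := mul_le_mul_of_nonneg_left hψ hb
      linarith
  exact this hv

/-- the upper bound predicate -/
def S (h : ℕ → StrongDual ℝ X) (v : StrongDual ℝ X) (c : ℝ) : Prop :=
  ∀ x : X, ‖x‖ ≤ 1 → ∀ᶠ k in atTop, v x - h k x < c

/-- the set of attainable upper bounds -/
def A (u : StrongDual ℝ X) (b : ℝ) (h : ℕ → StrongDual ℝ X) (n : ℕ) : Set ℝ :=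
  {c | ∃ (h' : ℕ → StrongDual ℝ X) (v : StrongDual ℝ X), Blk h' h ∧ v ∈ C h n ∧ S h' (u + b • v) c}

theorem S_pos {h : ℕ → StrongDual ℝ X} {v : StrongDual ℝ X} {c : ℝ} (hS : S h v c) : 0 < c := by
  obtain ⟨k, hk⟩ := (hS 0 (by simp)).exists
  simpa using hk

theorem A_bdd (u : StrongDual ℝ X) (b : ℝ) (h : ℕ → StrongDual ℝ X) (n : ℕ) : BddBelow (A u b h n) :=
  ⟨0, by rintro c ⟨h', v, -, -, hS⟩; exact (S_pos hS).le⟩

theorem A_nonempty (u : StrongDual ℝ X) (b : ℝ) {h : ℕ → StrongDual ℝ X} (hn : ∀ k, ‖h k‖ ≤ 1)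
    (n : ℕ) : (A u b h n).Nonempty := by
  refine ⟨‖u + b • h n‖ + 2, h, h n, Blk.refl h, C_self h n, fun x hx => Eventually.of_forall ?_⟩
  intro k
  have h1 : |(u + b • h n) x| ≤ ‖u + b • h n‖ := by
    have := (u + b • h n).le_opNorm x
    rw [Real.norm_eq_abs] at this
    exact this.trans (mul_le_of_le_one_right (norm_nonneg _) hx)
  have h2 : |h k x| ≤ 1 := by
    have := (h k).le_opNorm x
    rw [Real.norm_eq_abs] at this
    exact this.trans ((mul_le_of_le_one_right (norm_nonneg _) hx).trans (hn k))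
  have h3 := (abs_le.1 h1).2
  have h4 := (abs_le.1 h2).1
  linarith

theorem step (u : StrongDual ℝ X) (b : ℝ) (h : ℕ → StrongDual ℝ X) (hn : ∀ k, ‖h k‖ ≤ 1) (n : ℕ)
    {lam : ℝ} (hl : 0 < lam) : ∃ (h' : ℕ → StrongDual ℝ X) (g : StrongDual ℝ X) (x : X),
      Blk h' h ∧ g ∈ C h n ∧ S h' (u + b • g) (sInf (A u b h n) + lam) ∧ ‖x‖ ≤ 1 ∧
      ∀ k, sInf (A u b h n) - lam ≤ (u + b • g) x - h' k x := by
  set α := sInf (A u b h n) with hα
  obtain ⟨c, ⟨h1, v, hb, hv, hS⟩, hc⟩ := exists_lt_of_csInf_lt (A_nonempty u b hn n)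
    (show sInf (A u b h n) < α + lam by linarith)
  have hnot : ¬ S h1 (u + b • v) (α - lam) := by
    intro hS'
    have : α ≤ α - lam := csInf_le (A_bdd u b h n) ⟨h1, v, hb, hv, hS'⟩
    linarith
  unfold S at hnot
  push Not at hnot
  obtain ⟨x, hx, hfr⟩ := hnot
  obtain ⟨φ, hφ, hφx⟩ := extraction_of_frequently_atTop hfr
  refine ⟨h1 ∘ φ, v, x, fun k => ?_, hv, fun y hy => ?_, hx, fun k => ?_⟩
  · exact C_anti h (hφ.id_le k) (hb (φ k))
  · have h2 := hφ.tendsto_atTop.eventually (hS y hy)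
    filter_upwards [h2] with k hk
    exact hk.trans hc
  · exact hφx k

/-- the state of the recursion -/
structure St (X : Type*) [NormedAddCommGroup X] [NormedSpace ℝ X] where
  /-- partial sum -/
  u : StrongDual ℝ X
  /-- current sequence -/
  h : ℕ → StrongDual ℝ X
  hn : ∀ k, ‖h k‖ ≤ 1

theorem blk_norm {h' h : ℕ → StrongDual ℝ X} (hb : Blk h' h) (hn : ∀ k, ‖h k‖ ≤ 1) (k : ℕ) :
    ‖h' k‖ ≤ 1 := C_norm hn (hb k)

theorem exists_seq (f : ℕ → StrongDual ℝ X) (hf : ∀ k, ‖f k‖ ≤ 1) (q : ℕ → ℝ) (p : ℕ → ℝ)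
    (lam : ℕ → ℝ) (hl : ∀ n, 0 < lam n) :
    ∃ (u : ℕ → StrongDual ℝ X) (h : ℕ → ℕ → StrongDual ℝ X) (g : ℕ → StrongDual ℝ X) (x : ℕ → X),
      u 0 = 0 ∧ h 0 = f ∧ ∀ n, (u (n + 1) = u n + p n • g n ∧ Blk (h (n + 1)) (h n) ∧
        g n ∈ C (h n) n ∧ S (h (n + 1)) (u n + q n • g n) (sInf (A (u n) (q n) (h n) n) + lam n) ∧
        ‖x n‖ ≤ 1 ∧
        ∀ k, sInf (A (u n) (q n) (h n) n) - lam n ≤ (u n + q n • g n) (x n) - h (n + 1) k (x n)) := by
  choose H G Y hB hG hS hY hL using fun (s : St X) (n : ℕ) => step s.u (q n) s.h s.hn n (hl n)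
  let nxt : ℕ → St X → St X := fun n s => ⟨s.u + p n • G s n, H s n, blk_norm (hB s n) s.hn⟩
  let st : ℕ → St X := fun n => Nat.rec ⟨0, f, hf⟩ nxt n
  have hst : ∀ n, st (n + 1) = nxt n (st n) := fun n => rfl
  refine ⟨fun n => (st n).u, fun n => (st n).h, fun n => G (st n) n, fun n => Y (st n) n, rfl, rfl,
    fun n => ⟨rfl, hB (st n) n, hG (st n) n, hS (st n) n, hY (st n) n, hL (st n) n⟩⟩

/-- ultrafilter limits of bounded sequences of functionals -/
theorem exists_ultralimit {W : Type*} [NormedAddCommGroup W] [NormedSpace ℝ W] {ι : Type*}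
    (U : Ultrafilter ι) (g : ι → (StrongDual ℝ W)) (R : ℝ) (hg : ∀ n, ‖g n‖ ≤ R) :
    ∃ G : StrongDual ℝ W, ‖G‖ ≤ R ∧ ∀ w, Tendsto (fun n => g n w) U (𝓝 (G w)) := by
  have hK := WeakDual.isCompact_closedBall (𝕜 := ℝ) (E := W) 0 R
  have h1 : ∀ n, StrongDual.toWeakDual (g n) ∈ (WeakDual.toStrongDual ⁻¹' Metric.closedBall (0 : StrongDual ℝ W) R) := by
    intro n
    simpa using hg n
  have h2 := (isCompact_iff_ultrafilter_le_nhds.1 hK) (U.map (fun n => StrongDual.toWeakDual (g n))) (by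
    rw [le_principal_iff]
    exact Filter.mem_map.2 (Filter.Eventually.of_forall h1))
  obtain ⟨G, hGR, hG⟩ := h2
  refine ⟨WeakDual.toStrongDual G, by simpa using hGR, fun w => ?_⟩
  have h3 : Tendsto (fun n => StrongDual.toWeakDual (g n)) U (𝓝 G) := hG
  have h4 := ((WeakDual.eval_continuous w).tendsto G).comp h3
  exact h4

variable [CompleteSpace X]

/-- **James's theorem**, for a space with a James sequence. -/
theorem james_aux (θ : ℝ) (hθ : 0 < θ) (y : ℕ → X) (f : ℕ → StrongDual ℝ X)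
    (hy : ∀ n, ‖y n‖ ≤ 1) (hf : ∀ n, ‖f n‖ ≤ 1) (h0 : ∀ k n, n < k → f k (y n) = 0)
    (h1 : ∀ k n, k ≤ n → θ ≤ f k (y n)) :
    ∃ (ψ : StrongDual ℝ X) (α : ℝ), 0 < α ∧ (∀ x, ‖x‖ ≤ 1 → ψ x < α) ∧ α ≤ ‖ψ‖ := by
  -- `θ ≤ 1`
  have hθ1 : θ ≤ 1 := by
    have e1 := h1 0 0 le_rfl
    have e2 := (f 0).le_opNorm (y 0)
    rw [Real.norm_eq_abs] at e2
    have e3 := le_abs_self (f 0 (y 0))
    have e4 : ‖f 0‖ * ‖y 0‖ ≤ 1 := by
      have := mul_le_mul (hf 0) (hy 0) (norm_nonneg _) zero_le_one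
      linarith
    linarith
  -- parameters
  set r : ℝ := θ / 8 with hr
  have hr0 : 0 < r := by positivity
  have hr1 : r ≤ 1 / 8 := by rw [hr]; linarith
  set q : ℕ → ℝ := fun n => r ^ n with hq
  have hq0 : ∀ n, 0 < q n := fun n => pow_pos hr0 n
  have hqs : ∀ n, q (n + 1) = r * q n := fun n => by simp only [hq]; ring
  have hq1 : ∀ n, q n ≤ 1 := fun n => pow_le_one₀ hr0.le (by linarith)
  set p : ℕ → ℝ := fun n => (1 - r) * q n with hp
  set lam : ℕ → ℝ := fun n => θ / 4 * q (n + 1) / 2 ^ (n + 1) with hlam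
  have hl0 : ∀ n, 0 < lam n := fun n => by
    have := hq0 (n + 1)
    simp only [hlam]; positivity
  obtain ⟨u, h, g, x, hu0, hh0, hrec⟩ := exists_seq f hf q p lam hl0
  have hu : ∀ n, u (n + 1) = u n + p n • g n := fun n => (hrec n).1
  have hB : ∀ n, Blk (h (n + 1)) (h n) := fun n => (hrec n).2.1
  have hG : ∀ n, g n ∈ C (h n) n := fun n => (hrec n).2.2.1
  have hS : ∀ n, S (h (n + 1)) (u n + q n • g n) (sInf (A (u n) (q n) (h n) n) + lam n) :=
    fun n => (hrec n).2.2.2.1
  have hx : ∀ n, ‖x n‖ ≤ 1 := fun n => (hrec n).2.2.2.2.1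
  have hL : ∀ n k, sInf (A (u n) (q n) (h n) n) - lam n ≤
      (u n + q n • g n) (x n) - h (n + 1) k (x n) := fun n => (hrec n).2.2.2.2.2
  set α : ℕ → ℝ := fun n => sInf (A (u n) (q n) (h n) n) with hα
  -- blocks
  have hBle : ∀ m n, m ≤ n → Blk (h n) (h m) := by
    intro m n hmn
    induction n, hmn using Nat.le_induction with
    | base => exact Blk.refl _
    | succ n hmn ih => exact (hB n).trans ih
  have hhn : ∀ n k, ‖h n k‖ ≤ 1 := by
    intro n k
    exact blk_norm (h := h 0) (hBle 0 n (Nat.zero_le n)) (by rw [hh0]; exact hf) k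
  have hg1 : ∀ n, ‖g n‖ ≤ 1 := fun n => C_norm (hhn n) (hG n)
  have hgC : ∀ m n, m ≤ n → g n ∈ C (h m) n := fun m n hmn => (hBle m n hmn).sub n (hG n)
  -- monotonicity of `α`
  have hmono : ∀ n, α n ≤ α (n + 1) := by
    intro n
    refine csInf_le_csInf (A_bdd _ _ _ _) (A_nonempty _ _ (hhn _) _) ?_
    rintro c ⟨h', v, hb, hv, hSc⟩
    refine ⟨h', (1 - r) • g n + r • v, hb.trans (hB n), ?_, ?_⟩
    · refine C_convex (h n) n (hG n) ?_ (by linarith) hr0.le (by ring)
      exact C_anti (h n) (Nat.le_succ n) ((hB n).sub _ hv)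
    · have e : u n + q n • ((1 - r) • g n + r • v) = u (n + 1) + q (n + 1) • v := by
        rw [hu, hqs, hp, smul_add, smul_smul, smul_smul, add_assoc]
        congr 2
        · ring_nf
        · ring_nf
      rw [e]
      exact hSc
  have hmonot : Monotone α := monotone_nat_of_le_succ hmono
  -- lower bound
  have hlow : θ ≤ α 0 := by
    refine le_csInf (A_nonempty _ _ (hhn _) _) ?_
    rintro c ⟨h', v, hb, hv, hSc⟩
    rw [hh0] at hb hv
    have e : u 0 + q 0 • v = v := by
      rw [hu0, hq]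
      simp
    rw [e] at hSc
    -- a vector on which `v` is at least `θ`
    obtain ⟨m, hm⟩ : ∃ m, θ ≤ v (y m) := by
      have : C f 0 ⊆ {φ : StrongDual ℝ X | ∃ M, ∀ m, M ≤ m → θ ≤ φ (y m)} := by
        refine convexHull_min ?_ ?_
        · rintro _ ⟨k, hk, rfl⟩
          exact ⟨k, fun m hm => h1 k m hm⟩
        · rintro φ ⟨M1, hM1⟩ ψ ⟨M2, hM2⟩ a b ha hb' hab
          refine ⟨max M1 M2, fun m hm => ?_⟩
          have e1 := hM1 m (le_trans (le_max_left _ _) hm)
          have e2 := hM2 m (le_trans (le_max_right _ _) hm)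
          change θ ≤ a * φ (y m) + b * ψ (y m)
          have e : θ = a * θ + b * θ := by rw [← add_mul, hab, one_mul]
          have e3 := mul_le_mul_of_nonneg_left e1 ha
          have e4 := mul_le_mul_of_nonneg_left e2 hb'
          linarith
      obtain ⟨M, hM⟩ := this hv
      exact ⟨M, hM M le_rfl⟩
    obtain ⟨k, hk1, hk2⟩ := ((hSc (y m) (hy m)).and (eventually_gt_atTop m)).exists
    have e1 : h' k (y m) ≤ 0 := by
      refine C_le (hb k) (y m) 0 fun j hj => ?_
      rw [h0 j m (lt_of_lt_of_le hk2 hj)]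
    linarith
  have hαθ : ∀ n, θ ≤ α n := fun n => hlow.trans (hmonot (Nat.zero_le n))
  -- upper bound
  have hun : ∀ n, ‖u n‖ ≤ 1 - q n := by
    intro n
    induction n with
    | zero => rw [hu0]; simp [hq]
    | succ n ih =>
      rw [hu]
      refine (norm_add_le _ _).trans ?_
      have hpn : 0 ≤ p n := mul_nonneg (by linarith) (hq0 n).le
      have e1 : ‖p n • g n‖ ≤ p n := by
        rw [norm_smul, Real.norm_eq_abs, abs_of_nonneg hpn]
        exact mul_le_of_le_one_right hpn (hg1 n)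
      have e2 : p n = q n - q (n + 1) := by rw [hqs]; simp only [hp]; ring
      linarith
  have hbd : BddAbove (Set.range α) := by
    refine ⟨3, ?_⟩
    rintro _ ⟨n, rfl⟩
    refine csInf_le (A_bdd _ _ _ _) ⟨h n, h n n, Blk.refl _, C_self _ _, fun z hz => ?_⟩
    refine Eventually.of_forall fun k => ?_
    have e0 : ‖u n + q n • h n n‖ ≤ 1 := by
      refine (norm_add_le _ _).trans ?_
      have : ‖q n • h n n‖ ≤ q n := by
        rw [norm_smul, Real.norm_eq_abs, abs_of_pos (hq0 n)]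
        exact mul_le_of_le_one_right (hq0 n).le (hhn n n)
      have := hun n
      linarith
    have e1 : |(u n + q n • h n n) z| ≤ 1 := by
      have := (u n + q n • h n n).le_opNorm z
      rw [Real.norm_eq_abs] at this
      exact this.trans ((mul_le_of_le_one_right (norm_nonneg _) hz).trans e0)
    have e2 : |h n k z| ≤ 1 := by
      have := (h n k).le_opNorm z
      rw [Real.norm_eq_abs] at this
      exact this.trans ((mul_le_of_le_one_right (norm_nonneg _) hz).trans (hhn n k))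
    have e3 := (abs_le.1 e1).2
    have e4 := (abs_le.1 e2).1
    linarith
  set a : ℝ := ⨆ n, α n with ha
  have hαa : ∀ n, α n ≤ a := fun n => le_ciSup hbd n
  have haθ : θ ≤ a := (hαθ 0).trans (hαa 0)
  have hαlim : Tendsto α atTop (𝓝 a) := tendsto_atTop_ciSup hmonot hbd
  -- the limit functional
  obtain ⟨w, hw1, hw⟩ := exists_ultralimit (Filter.hyperfilter ℕ) g 1 hg1
  have hlarge : ∀ N : ℕ, ∀ᶠ k in (Filter.hyperfilter ℕ : Filter ℕ), N ≤ k := by
    intro N
    have : ∀ᶠ k in (cofinite : Filter ℕ), N ≤ k := by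
      rw [Nat.cofinite_eq_atTop]
      exact eventually_ge_atTop N
    exact this.filter_mono Filter.hyperfilter_le_cofinite
  have G1 : ∀ n z, ‖z‖ ≤ 1 → (u n + q n • g n - w) z ≤ α n + lam n := by
    intro n z hz
    obtain ⟨N, hN⟩ := eventually_atTop.1 (hS n z hz)
    have h2 : (u n + q n • g n) z - (α n + lam n) ≤ w z := by
      refine ge_of_tendsto (hw z) ?_
      filter_upwards [hlarge N, hlarge (n + 1)] with k hk1 hk2
      refine C_ge (hgC (n + 1) k hk2) z _ fun j hj => ?_
      have := hN j (hk1.trans hj)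
      linarith
    change (u n + q n • g n) z - w z ≤ _
    linarith
  have G2 : ∀ n, α n - lam n ≤ (u n + q n • g n - w) (x n) := by
    intro n
    have h2 : w (x n) ≤ (u n + q n • g n) (x n) - (α n - lam n) := by
      refine le_of_tendsto (hw (x n)) ?_
      filter_upwards [hlarge (n + 1)] with k hk2
      refine C_le (hgC (n + 1) k hk2) (x n) _ fun j hj => ?_
      have := hL n j
      linarith
    change _ ≤ (u n + q n • g n) (x n) - w (x n)
    linarith
  have G1' : ∀ n, ‖u n + q n • g n - w‖ ≤ α n + lam n := by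
    intro n
    have hpos : 0 ≤ α n + lam n := by
      have := hαθ n
      have := hl0 n
      linarith
    refine ContinuousLinearMap.opNorm_le_bound _ hpos fun z => ?_
    rcases eq_or_ne z 0 with hz | hz
    · rw [hz]; simp
    have hz0 : 0 < ‖z‖ := norm_pos_iff.2 hz
    have key : ∀ s : ℝ, |s| = 1 → s * (u n + q n • g n - w) z ≤ (α n + lam n) * ‖z‖ := by
      intro s hs
      have := G1 n ((s * ‖z‖⁻¹) • z) (by
        rw [norm_smul, norm_mul, Real.norm_eq_abs, hs, norm_inv, norm_norm, one_mul,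
          inv_mul_cancel₀ hz0.ne'])
      rw [map_smul, smul_eq_mul] at this
      have h3 := mul_le_mul_of_nonneg_right this hz0.le
      have h4 : s * ‖z‖⁻¹ * (u n + q n • g n - w) z * ‖z‖ = s * (u n + q n • g n - w) z := by
        field_simp
      rw [h4] at h3
      exact h3
    rw [Real.norm_eq_abs, abs_le]
    have k1 := key 1 (by simp)
    have k2 := key (-1) (by simp)
    constructor <;> linarith
  -- estimate of the partial sums
  have hA : ∀ n, ‖u n - (1 - q n) • w‖ ≤ a * (1 - q n) + θ / 4 * q n * (1 - 1 / 2 ^ n) := by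
    intro n
    induction n with
    | zero => rw [hu0]; simp [hq]
    | succ n ih =>
      have e : u (n + 1) - (1 - q (n + 1)) • w =
          (1 - r) • (u n + q n • g n - w) + r • (u n - (1 - q n) • w) := by
        rw [hu, hqs]
        simp only [hp]
        module
      rw [e]
      refine (norm_add_le _ _).trans ?_
      rw [norm_smul, norm_smul, Real.norm_eq_abs, Real.norm_eq_abs, abs_of_pos hr0,
        abs_of_nonneg (by linarith : (0 : ℝ) ≤ 1 - r)]
      have e1 := mul_le_mul_of_nonneg_left (G1' n) (by linarith : (0 : ℝ) ≤ 1 - r)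
      have e2 := mul_le_mul_of_nonneg_left ih hr0.le
      have e3 : (1 - r) * (α n + lam n) ≤ (1 - r) * a + lam n := by
        have e4 := mul_le_mul_of_nonneg_left (hαa n) (by linarith : (0 : ℝ) ≤ 1 - r)
        have e5 : (1 - r) * lam n ≤ lam n := mul_le_of_le_one_left (hl0 n).le (by linarith)
        nlinarith
      have e6 : (1 - r) * a + lam n + r * (a * (1 - q n) + θ / 4 * q n * (1 - 1 / 2 ^ n)) =
          a * (1 - q (n + 1)) + θ / 4 * q (n + 1) * (1 - 1 / 2 ^ (n + 1)) := by
        simp only [hlam]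
        rw [hqs]
        field_simp
        ring
      linarith
  -- the sum of the series
  have hdist : ∀ n, dist (u n) (u (n + 1)) ≤ (1 - r) * r ^ n := by
    intro n
    rw [dist_comm, dist_eq_norm, hu, add_sub_cancel_left]
    have hpn : 0 ≤ p n := mul_nonneg (by linarith) (hq0 n).le
    rw [norm_smul, Real.norm_eq_abs, abs_of_nonneg hpn]
    exact mul_le_of_le_one_right hpn (hg1 n)
  have hcau : CauchySeq u := cauchySeq_of_le_geometric r (1 - r) (by linarith) hdist
  obtain ⟨v, hv⟩ := cauchySeq_tendsto_of_complete hcau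
  have hvd : ∀ n, ‖v - u n‖ ≤ q n := by
    intro n
    have := dist_le_of_le_geometric_of_tendsto r (1 - r) (by linarith) hdist hv n
    rw [dist_comm, dist_eq_norm] at this
    refine this.trans (le_of_eq ?_)
    have : (1 - r : ℝ) ≠ 0 := by linarith
    field_simp
    rfl
  have hq_lim : Tendsto q atTop (𝓝 0) := tendsto_pow_atTop_nhds_zero_of_lt_one hr0.le (by linarith)
  have hlam_le : ∀ n, lam n ≤ q n := by
    intro n
    simp only [hlam]
    rw [div_le_iff₀ (by positivity)]
    have e1 : (1 : ℝ) ≤ 2 ^ (n + 1) := one_le_pow₀ (by norm_num)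
    have e2 := hq0 n
    have e3 : q (n + 1) ≤ q n := by rw [hqs]; nlinarith
    have e4 : θ / 4 * q (n + 1) ≤ q n := by
      have := hq0 (n + 1)
      nlinarith
    nlinarith
  refine ⟨v - w, a, by linarith, ?_, ?_⟩
  · intro z hz
    obtain ⟨n, hn⟩ : ∃ n, g n z - w z < θ / 8 := by
      have h2 : Tendsto (fun n => g n z - w z) (Filter.hyperfilter ℕ) (𝓝 0) := by
        have := (hw z).sub_const (w z)
        rwa [sub_self] at this
      exact (h2.eventually (gt_mem_nhds (show (0 : ℝ) < θ / 8 by positivity))).exists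
    have e1 : (v - w) z = (u n - (1 - q n) • w) z + p n * (g n z - w z) +
        ((v - u (n + 1)) z - q (n + 1) * w z) := by
      rw [hu, hqs]
      simp only [hp, sub_apply, add_apply, smul_apply, smul_eq_mul]
      ring
    have b1 : (u n - (1 - q n) • w) z ≤ a * (1 - q n) + θ / 4 * q n := by
      have e2 := (u n - (1 - q n) • w).le_opNorm z
      rw [Real.norm_eq_abs] at e2
      have e3 := le_abs_self ((u n - (1 - q n) • w) z)
      have e4 : ‖u n - (1 - q n) • w‖ * ‖z‖ ≤ ‖u n - (1 - q n) • w‖ :=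
        mul_le_of_le_one_right (norm_nonneg _) hz
      have e5 := hA n
      have e6 : θ / 4 * q n * (1 - 1 / 2 ^ n) ≤ θ / 4 * q n := by
        refine mul_le_of_le_one_right ?_ ?_
        · have := hq0 n
          positivity
        · have : (0 : ℝ) < 1 / 2 ^ n := by positivity
          linarith
      linarith
    have b2 : p n * (g n z - w z) ≤ q n * (θ / 8) := by
      have hpn : 0 ≤ p n := mul_nonneg (by linarith) (hq0 n).le
      have e2 : p n ≤ q n := by
        simp only [hp]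
        have := hq0 n
        nlinarith
      calc p n * (g n z - w z) ≤ p n * (θ / 8) := mul_le_mul_of_nonneg_left hn.le hpn
        _ ≤ q n * (θ / 8) := mul_le_mul_of_nonneg_right e2 (by positivity)
    have b3 : (v - u (n + 1)) z ≤ q (n + 1) := by
      have e2 := (v - u (n + 1)).le_opNorm z
      rw [Real.norm_eq_abs] at e2
      have e3 := le_abs_self ((v - u (n + 1)) z)
      have e4 : ‖v - u (n + 1)‖ * ‖z‖ ≤ ‖v - u (n + 1)‖ :=
        mul_le_of_le_one_right (norm_nonneg _) hz
      have e5 := hvd (n + 1)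
      linarith
    have b4 : -(q (n + 1) * w z) ≤ q (n + 1) := by
      have e2 := w.le_opNorm z
      rw [Real.norm_eq_abs] at e2
      have e3 := neg_le_abs (w z)
      have e4 : ‖w‖ * ‖z‖ ≤ 1 := by
        have := mul_le_mul hw1 hz (norm_nonneg _) zero_le_one
        linarith
      have e5 := hq0 (n + 1)
      nlinarith
    have e7 : q (n + 1) = θ / 8 * q n := by rw [hqs, hr]
    rw [e1]
    rw [e7] at b3 b4
    rw [e7]
    have e8 := hq0 n
    have e9 : θ * q n ≤ a * q n := mul_le_mul_of_nonneg_right haθ e8.le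
    have e10 : 0 < θ * q n := mul_pos hθ e8
    nlinarith
  · have hlim : Tendsto (fun n => α n - 3 * q n) atTop (𝓝 a) := by
      have := hαlim.sub (hq_lim.const_mul 3)
      simpa using this
    refine le_of_tendsto hlim (Eventually.of_forall fun n => ?_)
    have e1 := G2 n
    have e2 : (u n + q n • g n - w) (x n) = (v - w) (x n) - (v - u n) (x n) + q n * g n (x n) := by
      simp only [sub_apply, add_apply, smul_apply, smul_eq_mul]
      ring
    have e3 : (v - w) (x n) ≤ ‖v - w‖ := by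
      have e4 := (v - w).le_opNorm (x n)
      rw [Real.norm_eq_abs] at e4
      have e5 := le_abs_self ((v - w) (x n))
      have e6 : ‖v - w‖ * ‖x n‖ ≤ ‖v - w‖ := mul_le_of_le_one_right (norm_nonneg _) (hx n)
      linarith
    have e4 : -((v - u n) (x n)) ≤ q n := by
      have e4 := (v - u n).le_opNorm (x n)
      rw [Real.norm_eq_abs] at e4
      have e5 := neg_le_abs ((v - u n) (x n))
      have e6 : ‖v - u n‖ * ‖x n‖ ≤ ‖v - u n‖ := mul_le_of_le_one_right (norm_nonneg _) (hx n)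
      have e7 := hvd n
      linarith
    have e5 : q n * g n (x n) ≤ q n := by
      have e4 := (g n).le_opNorm (x n)
      rw [Real.norm_eq_abs] at e4
      have e5 := le_abs_self (g n (x n))
      have e6 : ‖g n‖ * ‖x n‖ ≤ 1 := by
        have := mul_le_mul (hg1 n) (hx n) (norm_nonneg _) zero_le_one
        linarith
      have e7 := hq0 n
      nlinarith
    have e6 := hlam_le n
    linarith

/-- **James's theorem**: if every continuous linear functional of a real Banach space attains its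
norm on the unit ball, the space is reflexive. -/
theorem james (hX : ∀ f : StrongDual ℝ X, ∃ x : X, ‖x‖ ≤ 1 ∧ f x = ‖f‖) :
    Function.Surjective (NormedSpace.inclusionInDoubleDual ℝ X) := by
  by_contra hns
  obtain ⟨θ, hθ, y, f, hy, hf, h0, h1⟩ := Pool.Agent.Helper902.NA.james_seq hns
  obtain ⟨ψ, α, -, h2, h3⟩ := james_aux θ hθ y f hy hf h0 h1
  obtain ⟨x, hx, hψ⟩ := hX ψ
  have := h2 x hx
  linarith

end Pool.Agent.TH327.JS
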