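import Mathlib
import Pool.Agent.TH327.JamesSup

/-!
Weakly null ultrafilters on the unit sphere and the function `h(z) = lim ‖z + y‖`.
-/

set_option autoImplicit false

namespace Pool.Agent.TH327.WMP

open Filter Topology Set

section ekeland

variable {X : Type*} [NormedAddCommGroup X]

/-- Ekeland's variational principle (adapted from `Pool.Agent.Helper983.WC.Ekeland`). -/
theorem ekeland [CompleteSpace X] (ψ : X → ℝ) (hc : Continuous ψ) (h0 : ∀ x, 0 ≤ ψ x)
    (x0 : X) {δ : ℝ} (hδ : 0 < δ) :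
    ∃ x, ψ x ≤ ψ x0 ∧ ∀ y, ψ x ≤ ψ y + δ * ‖y - x‖ := by
  have step : ∀ (n : ℕ) (x : X), ∃ z, ψ z + δ * ‖z - x‖ ≤ ψ x ∧
      ∀ y, ψ y + δ * ‖y - x‖ ≤ ψ x → ψ z ≤ ψ y + (1 / 2 : ℝ) ^ n := by
    intro n x
    set S : Set ℝ := ψ '' {y | ψ y + δ * ‖y - x‖ ≤ ψ x} with hS
    have hne : S.Nonempty := ⟨ψ x, x, by simp, rfl⟩
    have hbdd : BddBelow S := ⟨0, by rintro _ ⟨y, -, rfl⟩; exact h0 y⟩
    obtain ⟨_, ⟨z, hz, rfl⟩, hz2⟩ := exists_lt_of_csInf_lt hne
      (show sInf S < sInf S + (1 / 2 : ℝ) ^ n by linarith [show (0 : ℝ) < (1 / 2) ^ n by positivity])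
    refine ⟨z, hz, fun y hy => ?_⟩
    have := csInf_le hbdd ⟨y, hy, rfl⟩
    linarith
  choose T hT1 hT2 using step
  let u : ℕ → X := fun n => Nat.rec x0 (fun n x => T n x) n
  have hu0 : u 0 = x0 := rfl
  have hus : ∀ n, u (n + 1) = T n (u n) := fun n => rfl
  have hmono : ∀ n m, n ≤ m → ψ (u m) + δ * ‖u m - u n‖ ≤ ψ (u n) := by
    intro n m hnm
    induction m, hnm using Nat.le_induction with
    | base => simp
    | succ m hnm ih =>
      have h1 := hT1 m (u m)
      rw [← hus] at h1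
      have h2 : ‖u (m + 1) - u n‖ ≤ ‖u (m + 1) - u m‖ + ‖u m - u n‖ := norm_sub_le_norm_sub_add_norm_sub _ _ _
      nlinarith
  have hanti : Antitone (fun n => ψ (u n)) := by
    refine antitone_nat_of_succ_le ?_
    intro n
    have := hmono n (n + 1) (Nat.le_succ n)
    have h3 : 0 ≤ δ * ‖u (n + 1) - u n‖ := by positivity
    linarith
  have hbdd : BddBelow (Set.range fun n => ψ (u n)) := ⟨0, by rintro _ ⟨n, rfl⟩; exact h0 _⟩
  have hlim := tendsto_atTop_ciInf hanti hbdd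
  set α := ⨅ n, ψ (u n) with hα
  have hge : ∀ n, α ≤ ψ (u n) := fun n => ciInf_le hbdd n
  have hcau : CauchySeq u := by
    rw [Metric.cauchySeq_iff']
    intro ε hε
    have h1 : ∀ᶠ n in atTop, ψ (u n) < α + δ * ε := hlim.eventually_lt_const (by
      have : 0 < δ * ε := by positivity
      linarith)
    obtain ⟨N, hN⟩ := h1.exists
    refine ⟨N, fun n hn => ?_⟩
    have h2 := hmono N n hn
    have h3 := hge n
    rw [dist_eq_norm]
    have h4 : δ * ‖u n - u N‖ < δ * ε := by linarith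
    exact lt_of_mul_lt_mul_left h4 hδ.le
  obtain ⟨x, hx⟩ := cauchySeq_tendsto_of_complete hcau
  have hψx : Tendsto (fun n => ψ (u n)) atTop (𝓝 (ψ x)) := (hc.tendsto x).comp hx
  have hS : ∀ n, ψ x + δ * ‖x - u n‖ ≤ ψ (u n) := by
    intro n
    have h1 : Tendsto (fun m => ψ (u m) + δ * ‖u m - u n‖) atTop (𝓝 (ψ x + δ * ‖x - u n‖)) :=
      hψx.add (((hx.sub_const _).norm).const_mul δ)
    refine le_of_tendsto h1 ?_
    filter_upwards [eventually_ge_atTop n] with m hm using hmono n m hm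
  refine ⟨x, ?_, ?_⟩
  · have := hS 0
    rw [hu0] at this
    have h3 : 0 ≤ δ * ‖x - x0‖ := by positivity
    linarith
  · intro y
    by_contra hcon
    push Not at hcon
    have hy : ∀ n, ψ (u (n + 1)) ≤ ψ y + (1 / 2 : ℝ) ^ n := by
      intro n
      rw [hus]
      refine hT2 n (u n) y ?_
      have h1 := hS n
      have h2 : ‖y - u n‖ ≤ ‖y - x‖ + ‖x - u n‖ := norm_sub_le_norm_sub_add_norm_sub _ _ _
      nlinarith
    have h1 : Tendsto (fun n : ℕ => ψ y + (1 / 2 : ℝ) ^ n) atTop (𝓝 (ψ y + 0)) :=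
      (tendsto_pow_atTop_nhds_zero_of_lt_one (by norm_num) (by norm_num)).const_add _
    have h2 : Tendsto (fun n => ψ (u (n + 1))) atTop (𝓝 (ψ x)) := hψx.comp (tendsto_add_atTop_nat 1)
    have h3 := le_of_tendsto_of_tendsto' h2 h1 hy
    have h4 : 0 ≤ δ * ‖y - x‖ := by positivity
    linarith

end ekeland

variable {E : Type*} [NormedAddCommGroup E] [NormedSpace ℝ E]

/-- a weakly null ultrafilter on the unit sphere of an infinite-dimensional space -/
theorem exists_null (hE : ¬ FiniteDimensional ℝ E) :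
    ∃ U : Ultrafilter E, (∀ᶠ y in (U : Filter E), ‖y‖ = 1) ∧
      ∀ f : StrongDual ℝ E, Tendsto (fun y => f y) U (𝓝 0) := by
  classical
  let A : Finset (StrongDual ℝ E) → Set E := fun F => {y | ‖y‖ = 1 ∧ ∀ f ∈ F, f y = 0}
  have hne : ∀ F, (A F).Nonempty := by
    intro F
    let L : E →ₗ[ℝ] (F → ℝ) := LinearMap.pi fun f => ((f : StrongDual ℝ E) : E →ₗ[ℝ] ℝ)
    have hL : ¬ Function.Injective L := fun hinj => hE (FiniteDimensional.of_injective L hinj)
    rw [← LinearMap.ker_eq_bot] at hL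
    obtain ⟨y, hy, hy0⟩ := (Submodule.ne_bot_iff _).1 hL
    refine ⟨‖y‖⁻¹ • y, ?_, ?_⟩
    · rw [norm_smul, norm_inv, norm_norm, inv_mul_cancel₀ (norm_ne_zero_iff.2 hy0)]
    · intro f hf
      have h1 : L y ⟨f, hf⟩ = 0 := by
        rw [LinearMap.mem_ker] at hy
        rw [hy]; rfl
      have h2 : f y = 0 := h1
      rw [map_smul, h2, smul_zero]
  let 𝓕 : Filter E := ⨅ F, 𝓟 (A F)
  have hdir : Directed (· ≥ ·) fun F => 𝓟 (A F) := by
    intro F F'
    refine ⟨F ∪ F', ?_, ?_⟩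
    · exact principal_mono.2 fun y hy => ⟨hy.1, fun f hf => hy.2 f (Finset.mem_union_left _ hf)⟩
    · exact principal_mono.2 fun y hy => ⟨hy.1, fun f hf => hy.2 f (Finset.mem_union_right _ hf)⟩
  have hNB : NeBot 𝓕 := iInf_neBot_of_directed' hdir fun F => principal_neBot_iff.2 (hne F)
  refine ⟨Ultrafilter.of 𝓕, ?_, fun f => ?_⟩
  · have h1 : A ∅ ∈ 𝓕 := mem_iInf_of_mem ∅ (mem_principal_self _)
    filter_upwards [Ultrafilter.of_le 𝓕 h1] with y hy using hy.1
  · have h1 : A {f} ∈ 𝓕 := mem_iInf_of_mem {f} (mem_principal_self _)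
    refine tendsto_const_nhds.congr' ?_
    filter_upwards [Ultrafilter.of_le 𝓕 h1] with y hy
    exact (hy.2 f (Finset.mem_singleton_self f)).symm

/-- limits of bounded real functions along ultrafilters -/
theorem ultra_lim {ι : Type*} (U : Ultrafilter ι) (f : ι → ℝ) (a b : ℝ)
    (h : ∀ᶠ i in (U : Filter ι), f i ∈ Icc a b) : ∃ c, Tendsto f U (𝓝 c) := by
  obtain ⟨c, -, hc⟩ := isCompact_Icc.ultrafilter_le_nhds (U.map f) (by
    rw [le_principal_iff]
    exact h)
  exact ⟨c, hc⟩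

theorem exists_h (U : Ultrafilter E) (hU : ∀ᶠ y in (U : Filter E), ‖y‖ = 1) :
    ∃ h : E → ℝ, ∀ z, Tendsto (fun y => ‖z + y‖) U (𝓝 (h z)) := by
  have : ∀ z : E, ∃ c, Tendsto (fun y => ‖z + y‖) U (𝓝 c) := fun z => by
    refine ultra_lim U _ 0 (‖z‖ + 1) ?_
    filter_upwards [hU] with y hy
    refine ⟨norm_nonneg _, ?_⟩
    have := norm_add_le z y
    rwa [hy] at this
  choose h hh using this
  exact ⟨h, hh⟩

section props

variable {U : Ultrafilter E} {h : E → ℝ} (hU : ∀ᶠ y in (U : Filter E), ‖y‖ = 1)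
  (hh : ∀ z, Tendsto (fun y => ‖z + y‖) U (𝓝 (h z)))

include hU hh in
theorem h_zero : h 0 = 1 := by
  have h1 : Tendsto (fun y : E => ‖(0 : E) + y‖) U (𝓝 1) := by
    refine tendsto_const_nhds.congr' ?_
    filter_upwards [hU] with y hy
    rw [zero_add, hy]
  exact tendsto_nhds_unique (hh 0) h1

include hh in
theorem h_lip (z w : E) : |h z - h w| ≤ ‖z - w‖ := by
  have h1 : Tendsto (fun y => |‖z + y‖ - ‖w + y‖|) U (𝓝 |h z - h w|) := ((hh z).sub (hh w)).abs
  refine le_of_tendsto h1 (Eventually.of_forall fun y => ?_)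
  have := abs_norm_sub_norm_le (z + y) (w + y)
  rwa [add_sub_add_right_eq_sub] at this

include hh in
theorem h_cont : Continuous h := by
  refine LipschitzWith.continuous (K := 1) (LipschitzWith.of_dist_le_mul fun z w => ?_)
  rw [Real.dist_eq, dist_eq_norm, NNReal.coe_one, one_mul]
  exact h_lip hh z w

include hh in
theorem h_nonneg (z : E) : 0 ≤ h z := ge_of_tendsto (hh z) (Eventually.of_forall fun _ => norm_nonneg _)

include hh in
theorem h_ge (h0 : ∀ f : StrongDual ℝ E, Tendsto (fun y => f y) U (𝓝 0)) (z : E) : ‖z‖ ≤ h z := by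
  obtain ⟨f, hf1, hf2⟩ := exists_dual_vector'' ℝ z
  have h1 : Tendsto (fun y => f (z + y)) U (𝓝 ‖z‖) := by
    have := (h0 f).const_add (f z)
    rw [add_zero] at this
    have h2 : f z = ‖z‖ := by simpa using hf2
    rw [h2] at this
    refine this.congr fun y => ?_
    rw [map_add, h2]
  refine le_of_tendsto_of_tendsto' h1 (hh z) fun y => ?_
  have h3 := f.le_opNorm (z + y)
  rw [Real.norm_eq_abs] at h3
  exact (le_abs_self _).trans (h3.trans (mul_le_of_le_one_left (norm_nonneg _) hf1))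

include hh in
/-- uniformity on compact sets -/
theorem uniform {K : Set E} (hK : IsCompact K) {η : ℝ} (hη : 0 < η) :
    ∀ᶠ y in (U : Filter E), ∀ x ∈ K, |‖x + y‖ - h x| ≤ η := by
  obtain ⟨t, -, htf, ht⟩ := hK.finite_cover_balls (show 0 < η / 3 by positivity)
  have h1 : ∀ᶠ y in (U : Filter E), ∀ x ∈ t, |‖x + y‖ - h x| < η / 3 := by
    rw [Filter.eventually_all_finite htf]
    intro x _
    have h2 : Tendsto (fun y => |‖x + y‖ - h x|) U (𝓝 0) := by
      have := ((hh x).sub_const (h x)).abs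
      rwa [sub_self, abs_zero] at this
    exact h2.eventually (gt_mem_nhds (by positivity))
  filter_upwards [h1] with y hy x hx
  obtain ⟨x', hx', hxx'⟩ := mem_iUnion₂.1 (ht hx)
  rw [Metric.mem_ball, dist_eq_norm] at hxx'
  have h2 := hy x' hx'
  have h3 := h_lip hh x x'
  have h4 := abs_norm_sub_norm_le (x + y) (x' + y)
  rw [add_sub_add_right_eq_sub] at h4
  rw [abs_le] at h3 h4 ⊢
  rw [abs_lt] at h2
  constructor <;> linarith

end props

end Pool.Agent.TH327.WMP
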