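import Mathlib
import Pool.Agent.TH327.WMP1

set_option autoImplicit false

namespace Pool.Agent.TH327.WMP

open Filter Topology Set

variable {E : Type*} [NormedAddCommGroup E] [NormedSpace ℝ E]

/-- Hahn-Banach: if `‖a - x‖ + κ ‖x‖ ≥ c` for all `x ∈ G`, then there is a functional of norm at most
one with `g a ≥ c` and `|g| ≤ κ ‖·‖` on `G`. -/
theorem hb (G : Submodule ℝ E) {κ c : ℝ} (hκ : 0 ≤ κ) (a : E) (ha : a ≠ 0)
    (hac : ∀ x ∈ G, c ≤ ‖a - x‖ + κ * ‖x‖) :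
    ∃ g : StrongDual ℝ E, ‖g‖ ≤ 1 ∧ c ≤ g a ∧ ∀ x ∈ G, |g x| ≤ κ * ‖x‖ := by
  let q : E → ℝ := fun e => ⨅ x : G, (‖e - (x : E)‖ + κ * ‖(x : E)‖)
  have hbdd : ∀ e : E, BddBelow (Set.range fun x : G => ‖e - (x : E)‖ + κ * ‖(x : E)‖) := fun e =>
    ⟨0, by rintro _ ⟨x, rfl⟩; positivity⟩
  have hq_le : ∀ (e : E) (x : G), q e ≤ ‖e - (x : E)‖ + κ * ‖(x : E)‖ := fun e x => ciInf_le (hbdd e) x
  have hle_q : ∀ (e : E) (r : ℝ), (∀ x : G, r ≤ ‖e - (x : E)‖ + κ * ‖(x : E)‖) → r ≤ q e := fun e r hr =>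
    le_ciInf hr
  have hhom : ∀ r : ℝ, 0 < r → ∀ e : E, q (r • e) = r * q e := by
    intro r hr e
    apply le_antisymm
    · have h1 : q (r • e) / r ≤ q e := by
        refine hle_q _ _ fun x => ?_
        rw [div_le_iff₀ hr]
        refine (hq_le (r • e) (r • x)).trans (le_of_eq ?_)
        have h2 : r • e - ((r • x : G) : E) = r • (e - (x : E)) := by
          rw [Submodule.coe_smul, smul_sub]
        rw [h2, Submodule.coe_smul, norm_smul, norm_smul, Real.norm_eq_abs, abs_of_pos hr]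
        ring
      rwa [div_le_iff₀ hr, mul_comm] at h1
    · refine hle_q _ _ fun x => ?_
      have h1 := hq_le e (r⁻¹ • x)
      have h2 := mul_le_mul_of_nonneg_left h1 hr.le
      refine h2.trans (le_of_eq ?_)
      have h3 : r • e - (x : E) = r • (e - ((r⁻¹ • x : G) : E)) := by
        rw [Submodule.coe_smul, smul_sub, smul_smul, mul_inv_cancel₀ hr.ne', one_smul]
      rw [h3, norm_smul, Submodule.coe_smul, norm_smul, norm_inv, Real.norm_eq_abs, abs_of_pos hr]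
      field_simp
  have hadd : ∀ e e' : E, q (e + e') ≤ q e + q e' := by
    intro e e'
    have h1 : q (e + e') - q e' ≤ q e := by
      refine hle_q _ _ fun x => ?_
      have h2 : q (e + e') - (‖e - (x : E)‖ + κ * ‖(x : E)‖) ≤ q e' := by
        refine hle_q _ _ fun x' => ?_
        have h3 := hq_le (e + e') (x + x')
        have h4 : ‖e + e' - ((x + x' : G) : E)‖ ≤ ‖e - (x : E)‖ + ‖e' - (x' : E)‖ := by
          have : e + e' - ((x + x' : G) : E) = (e - x) + (e' - x') := by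
            rw [Submodule.coe_add]; abel
          rw [this]
          exact norm_add_le _ _
        have h5 : ‖((x + x' : G) : E)‖ ≤ ‖(x : E)‖ + ‖(x' : E)‖ := norm_add_le _ _
        have h6 := mul_le_mul_of_nonneg_left h5 hκ
        linarith
      linarith
    linarith
  have hqa : c ≤ q a := hle_q _ _ fun x => hac x x.2
  have hq0 : ∀ e : E, 0 ≤ q e := fun e => hle_q _ _ fun x => by positivity
  have hqn : ∀ e : E, q e ≤ ‖e‖ := fun e => by
    have := hq_le e 0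
    simpa using this
  have hqG : ∀ x ∈ G, q x ≤ κ * ‖x‖ := fun x hx => by
    have := hq_le x ⟨x, hx⟩
    simpa using this
  let f0 : E →ₗ.[ℝ] ℝ := LinearPMap.mkSpanSingleton (K := ℝ) (L := ℝ) (σ := RingHom.id ℝ) a (q a) ha
  obtain ⟨g, hg1, hg2⟩ := exists_extension_of_le_sublinear f0
    q hhom hadd (by
      rintro ⟨x, hx⟩
      obtain ⟨s, rfl⟩ := Submodule.mem_span_singleton.1 hx
      have hf0 : f0 ⟨s • a, hx⟩ = s * q a := LinearPMap.mkSpanSingleton'_apply a (q a) _ s hx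
      rw [hf0]
      change s * q a ≤ q (s • a)
      rcases lt_trichotomy s 0 with hs | hs | hs
      · have h1 := hq0 (s • a)
        have h2 := hq0 a
        nlinarith
      · rw [hs]; simp [hq0]
      · rw [hhom s hs])
  have hga : g a = q a := by
    have h1 := hg1 ⟨a, Submodule.mem_span_singleton_self a⟩
    have h2 : f0 ⟨a, Submodule.mem_span_singleton_self a⟩ = q a :=
      LinearPMap.mkSpanSingleton'_apply_self a (q a) _ _
    exact h1.trans h2
  have hgb : ∀ e, ‖g e‖ ≤ 1 * ‖e‖ := by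
    intro e
    rw [one_mul, Real.norm_eq_abs, abs_le]
    have h1 := (hg2 e).trans (hqn e)
    have h2 := (hg2 (-e)).trans (hqn (-e))
    rw [map_neg, norm_neg] at h2
    constructor <;> linarith
  refine ⟨g.mkContinuous 1 hgb, LinearMap.mkContinuous_norm_le _ zero_le_one _, ?_, ?_⟩
  · rw [LinearMap.mkContinuous_apply, hga]; exact hqa
  · intro x hx
    rw [LinearMap.mkContinuous_apply, abs_le]
    have h1 := (hg2 x).trans (hqG x hx)
    have h2 := (hg2 (-x)).trans (hqG (-x) (G.neg_mem hx))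
    rw [map_neg, norm_neg] at h2
    constructor <;> linarith

/-- almost norming vectors -/
theorem exists_norming (w : StrongDual ℝ E) {ε : ℝ} (hε : 0 < ε) : ∃ d : E, ‖d‖ ≤ 1 ∧ ‖w‖ - ε ≤ w d := by
  obtain ⟨x, hx, hwx⟩ := w.exists_lt_apply_of_lt_opNorm (show ‖w‖ - ε < ‖w‖ by linarith)
  rw [Real.norm_eq_abs] at hwx
  rcases abs_choice (w x) with h | h
  · exact ⟨x, hx.le, by rw [← h]; exact hwx.le⟩
  · exact ⟨-x, by rw [norm_neg]; exact hx.le, by rw [map_neg, ← h]; exact hwx.le⟩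

/-- finite nets of the unit sphere of a finite-dimensional space -/
theorem finite_net {V : Type*} [NormedAddCommGroup V] [NormedSpace ℝ V] [FiniteDimensional ℝ V]
    {η : ℝ} (hη : 0 < η) : ∃ t : Set V, t.Finite ∧ ∀ v : V, ‖v‖ = 1 → ∃ w ∈ t, ‖v - w‖ < η := by
  have : ProperSpace V := FiniteDimensional.proper_real V
  obtain ⟨t, -, htf, ht⟩ := (isCompact_sphere (0 : V) 1).finite_cover_balls hη
  refine ⟨t, htf, fun v hv => ?_⟩
  obtain ⟨w, hw, hvw⟩ := mem_iUnion₂.1 (ht (mem_sphere_zero_iff_norm.2 hv))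
  rw [Metric.mem_ball, dist_eq_norm] at hvw
  exact ⟨w, hw, hvw⟩

/-- finite-dimensional spaces of functionals are almost normed by finite-dimensional spaces -/
theorem norming (W : Submodule ℝ (StrongDual ℝ E)) [FiniteDimensional ℝ W] {η : ℝ} (hη : 0 < η) :
    ∃ G : Submodule ℝ E, FiniteDimensional ℝ G ∧
      ∀ w ∈ W, ∃ d ∈ G, ‖d‖ ≤ 1 ∧ (1 - η) * ‖w‖ ≤ w d := by
  classical
  obtain ⟨t, htf, ht⟩ := finite_net (V := W) (show 0 < η / 3 by positivity)
  choose D hD1 hD2 using fun w : StrongDual ℝ E => exists_norming w (show 0 < η / 3 by positivity)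
  refine ⟨Submodule.span ℝ ((fun w : W => D w) '' t), FiniteDimensional.span_of_finite ℝ
    (htf.image _), fun w hw => ?_⟩
  rcases eq_or_ne w 0 with h0 | h0
  · exact ⟨0, Submodule.zero_mem _, by simp, by rw [h0]; simp⟩
  have hw0 : 0 < ‖w‖ := norm_pos_iff.2 h0
  have hn1 : ‖‖w‖⁻¹ • w‖ = 1 := by
    rw [norm_smul, norm_inv, norm_norm, inv_mul_cancel₀ hw0.ne']
  obtain ⟨w2, hw2, hw12⟩ := ht ⟨‖w‖⁻¹ • w, W.smul_mem _ hw⟩ hn1
  have h4 : ‖‖w‖⁻¹ • w - (w2 : StrongDual ℝ E)‖ < η / 3 := hw12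
  refine ⟨D w2, Submodule.subset_span ⟨w2, hw2, rfl⟩, hD1 _, ?_⟩
  have h1 := hD2 (w2 : StrongDual ℝ E)
  have h2 : |(‖w‖⁻¹ • w - (w2 : StrongDual ℝ E)) (D w2)| ≤ η / 3 := by
    have h3 := (‖w‖⁻¹ • w - (w2 : StrongDual ℝ E)).le_opNorm (D w2)
    rw [Real.norm_eq_abs] at h3
    have h5 := hD1 (w2 : StrongDual ℝ E)
    calc _ ≤ _ := h3
      _ ≤ η / 3 * 1 := mul_le_mul h4.le h5 (norm_nonneg _) (by positivity)
      _ = η / 3 := mul_one _
  have h3 : ‖‖w‖⁻¹ • w‖ - η / 3 ≤ ‖(w2 : StrongDual ℝ E)‖ := by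
    have h5 := norm_sub_norm_le (‖w‖⁻¹ • w) (w2 : StrongDual ℝ E)
    linarith
  rw [hn1] at h3
  have h5 := (abs_le.1 h2).1
  have h6 : (‖w‖⁻¹ • w - (w2 : StrongDual ℝ E)) (D w2) =
      ‖w‖⁻¹ * w (D w2) - (w2 : StrongDual ℝ E) (D w2) := rfl
  rw [h6] at h5
  have h7 : 1 - η ≤ ‖w‖⁻¹ * w (D w2) := by linarith
  have h8 := mul_le_mul_of_nonneg_right h7 hw0.le
  have h9 : ‖w‖⁻¹ * w (D w2) * ‖w‖ = w (D w2) := by field_simp
  rwa [h9] at h8

end Pool.Agent.TH327.WMP
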