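import Mathlib
import Pool.Agent.TH327.WMP2

set_option autoImplicit false

namespace Pool.Agent.TH327.WMP

open Filter Topology Set

variable {E : Type*} [NormedAddCommGroup E] [NormedSpace ℝ E]

/-- the bad configuration: unit vectors `x k`, not weakly null, almost normed by functionals `g k` all of
whose weak* cluster points have norm at most `c < 1` -/
def Bad (E : Type*) [NormedAddCommGroup E] [NormedSpace ℝ E] : Prop :=
  ∃ (x : ℕ → E) (g : ℕ → StrongDual ℝ E) (g0 : StrongDual ℝ E) (c d : ℝ), c < 1 ∧ 0 < d ∧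
    (∀ k, ‖x k‖ = 1) ∧ (∀ k, ‖g k‖ ≤ 1) ∧ Tendsto (fun k => g k (x k)) atTop (𝓝 1) ∧
    (∀ k, d ≤ g0 (x k)) ∧ ∀ V : Ultrafilter ℕ, (V : Filter ℕ) ≤ atTop → ∀ G : StrongDual ℝ E,
      (∀ x, Tendsto (fun k => g k x) V (𝓝 (G x))) → ‖G‖ ≤ c

/-- weak* limits are in the closed span, in a reflexive space -/
theorem mem_closure_of_limit (hrefl : Function.Surjective (NormedSpace.inclusionInDoubleDual ℝ E))
    {ι : Type*} (V : Ultrafilter ι) (g : ι → StrongDual ℝ E) (W : Submodule ℝ (StrongDual ℝ E))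
    (hg : ∀ i, g i ∈ W) (G : StrongDual ℝ E) (hG : ∀ x, Tendsto (fun k => g k x) V (𝓝 (G x))) :
    G ∈ closure (W : Set (StrongDual ℝ E)) := by
  by_contra hcon
  obtain ⟨Φ, r, h1, h2⟩ := geometric_hahn_banach_closed_point
    (s := closure (W : Set (StrongDual ℝ E))) W.convex.closure isClosed_closure hcon
  -- `Φ` vanishes on `W`
  have h3 : ∀ w ∈ W, Φ w = 0 := by
    intro w hw
    by_contra hne
    have h4 := h1 ((((r + 1) / Φ w)) • w) (subset_closure (W.smul_mem _ hw))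
    rw [map_smul, smul_eq_mul, div_mul_cancel₀ _ hne] at h4
    linarith
  have h0 : 0 < r := by
    have := h1 0 (subset_closure W.zero_mem)
    rwa [map_zero] at this
  obtain ⟨x, rfl⟩ := hrefl Φ
  have h5 : G x = 0 := by
    have h6 : Tendsto (fun k => g k x) V (𝓝 0) := by
      refine tendsto_const_nhds.congr fun k => ?_
      exact (h3 (g k) (hg k)).symm
    exact tendsto_nhds_unique (hG x) h6
  have h7 : (NormedSpace.inclusionInDoubleDual ℝ E x) G = G x := rfl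
  rw [h7, h5] at h2
  linarith

section main

variable {U : Ultrafilter E} {h : E → ℝ} (hU : ∀ᶠ y in (U : Filter E), ‖y‖ = 1)
  (hU0 : ∀ f : StrongDual ℝ E, Tendsto (fun y => f y) U (𝓝 0))
  (hh : ∀ z, Tendsto (fun y => ‖z + y‖) U (𝓝 (h z)))

include hU hU0 hh

theorem step {z : E} (hz0 : z ≠ 0) {κ : ℝ} (hκ0 : 0 ≤ κ) (hz : ∀ v, h z - κ * ‖v‖ ≤ h (z + v))
    (g0 : StrongDual ℝ E) (hg0 : g0 z = ‖z‖) (G : Submodule ℝ E) [FiniteDimensional ℝ G]
    {δ : ℝ} (hδ : 0 < δ) :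
    ∃ (y : E) (g : StrongDual ℝ E), ‖y‖ = 1 ∧ |‖z + y‖ - h z| ≤ δ ∧ ‖g‖ ≤ 1 ∧
      h z - δ ≤ g (z + y) ∧ (∀ x ∈ G, |g x| ≤ κ * ‖x‖) ∧ ‖z‖ / 2 ≤ g0 (z + y) := by
  have hzn : 0 < ‖z‖ := norm_pos_iff.2 hz0
  set R : ℝ := h z + ‖z‖ + 1 with hR
  have hprop : ProperSpace G := FiniteDimensional.proper_real G
  have hK : IsCompact ((fun x : G => z - (x : E)) '' Metric.closedBall 0 R) := by
    refine (isCompact_closedBall (0 : G) R).image ?_
    fun_prop
  have e1 := uniform hh hK hδ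
  have e2 : ∀ᶠ y in (U : Filter E), |‖z + y‖ - h z| < δ := by
    have h2 : Tendsto (fun y => |‖z + y‖ - h z|) U (𝓝 0) := by
      have := ((hh z).sub_const (h z)).abs
      rwa [sub_self, abs_zero] at this
    exact h2.eventually (gt_mem_nhds hδ)
  have e3 : ∀ᶠ y in (U : Filter E), |g0 y| < ‖z‖ / 2 := by
    have h2 := (hU0 g0).abs
    rw [abs_zero] at h2
    exact h2.eventually (gt_mem_nhds (by positivity))
  obtain ⟨y, hy1, hy2, hy3, hy4⟩ := (hU.and (e1.and (e2.and e3))).exists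
  have hg0y : ‖z‖ / 2 ≤ g0 (z + y) := by
    rw [map_add, hg0]
    have := (abs_lt.1 hy4).1
    linarith
  have ha : z + y ≠ 0 := by
    intro h0
    rw [h0, map_zero] at hg0y
    linarith
  obtain ⟨g, hg1, hg2, hg3⟩ := hb G hκ0 (c := h z - δ) (z + y) ha (by
    intro x hx
    rcases le_or_gt ‖x‖ R with hxR | hxR
    · have f1 := hy2 (z - x) ⟨⟨x, hx⟩, by
        rw [mem_closedBall_zero_iff]
        exact hxR, rfl⟩
      have f2 := hz (-x)
      rw [norm_neg, ← sub_eq_add_neg] at f2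
      have f3 : z - x + y = z + y - x := by abel
      rw [f3] at f1
      have f4 := (abs_le.1 f1).1
      linarith
    · have f1 : ‖x‖ ≤ ‖z + y - x‖ + (‖z‖ + 1) := by
        have f2 : x = -(z + y - x) + (z + y) := by abel
        calc ‖x‖ = ‖-(z + y - x) + (z + y)‖ := by rw [← f2]
          _ ≤ ‖-(z + y - x)‖ + ‖z + y‖ := norm_add_le _ _
          _ ≤ ‖z + y - x‖ + (‖z‖ + 1) := by
            rw [norm_neg]
            have := norm_add_le z y
            rw [hy1] at this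
            linarith
      have f3 : 0 ≤ κ * ‖x‖ := by positivity
      linarith)
  exact ⟨y, g, hy1, hy3.le, hg1, hg2, hg3, hg0y⟩

omit hU hU0 hh in
/-- recursion -/
theorem exists_states (P : ℕ → Submodule ℝ E → E → StrongDual ℝ E → Prop)
    (hP : ∀ (n : ℕ) (G : Submodule ℝ E) [FiniteDimensional ℝ G], ∃ y g, P n G y g) {η : ℝ}
    (hη : 0 < η) :
    ∃ (W : ℕ → Submodule ℝ (StrongDual ℝ E)) (G : ℕ → Submodule ℝ E) (y : ℕ → E)
      (g : ℕ → StrongDual ℝ E), Monotone W ∧ Monotone G ∧ (∀ n, P n (G n) (y n) (g n)) ∧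
      (∀ n, g n ∈ W (n + 1)) ∧ (∀ n, ∀ w ∈ W n, ∃ d ∈ G n, ‖d‖ ≤ 1 ∧ (1 - η) * ‖w‖ ≤ w d) := by
  classical
  let St := {p : Submodule ℝ (StrongDual ℝ E) × Submodule ℝ E //
    FiniteDimensional ℝ p.1 ∧ FiniteDimensional ℝ p.2 ∧
    ∀ w ∈ p.1, ∃ d ∈ p.2, ‖d‖ ≤ 1 ∧ (1 - η) * ‖w‖ ≤ w d}
  have hstep : ∀ (s : St) (n : ℕ), ∃ (y : E) (g : StrongDual ℝ E) (s' : St), P n s.1.2 y g ∧
      s.1.1 ≤ s'.1.1 ∧ s.1.2 ≤ s'.1.2 ∧ g ∈ s'.1.1 := by
    rintro ⟨⟨W, G⟩, hW, hG, hn⟩ n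
    have hW' : FiniteDimensional ℝ W := hW
    have hG' : FiniteDimensional ℝ G := hG
    obtain ⟨y, g, hyg⟩ := hP n G
    have hW2 : FiniteDimensional ℝ (W ⊔ Submodule.span ℝ {g} : Submodule ℝ (StrongDual ℝ E)) :=
      inferInstance
    obtain ⟨G2, hG2, hn2⟩ := norming (W ⊔ Submodule.span ℝ {g}) hη
    refine ⟨y, g, ⟨⟨W ⊔ Submodule.span ℝ {g}, G ⊔ G2⟩, hW2, inferInstance, ?_⟩, hyg, le_sup_left,
      le_sup_left, ?_⟩
    · intro w hw
      obtain ⟨d, hd, h1, h2⟩ := hn2 w hw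
      exact ⟨d, (le_sup_right : G2 ≤ G ⊔ G2) hd, h1, h2⟩
    · exact (le_sup_right : Submodule.span ℝ {g} ≤ W ⊔ Submodule.span ℝ {g})
        (Submodule.mem_span_singleton_self g)
  choose Y G S h1 h2 h3 h4 using hstep
  let s0 : St := ⟨⟨⊥, ⊥⟩, inferInstance, inferInstance, fun w hw => ⟨0, Submodule.zero_mem _,
    by simp, by
      rw [(Submodule.mem_bot ℝ).1 hw]
      simp⟩⟩
  let st : ℕ → St := fun n => Nat.rec s0 (fun n s => S s n) n
  have hst : ∀ n, st (n + 1) = S (st n) n := fun n => rfl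
  refine ⟨fun n => (st n).1.1, fun n => (st n).1.2, fun n => Y (st n) n, fun n => G (st n) n,
    monotone_nat_of_le_succ fun n => ?_, monotone_nat_of_le_succ fun n => ?_, fun n => h1 _ _,
    fun n => ?_, fun n => (st n).2.2.2⟩
  · exact h2 (st n) n
  · exact h3 (st n) n
  · exact h4 (st n) n

variable [CompleteSpace E]

theorem bad_of_lt (hrefl : Function.Surjective (NormedSpace.inclusionInDoubleDual ℝ E))
    (z1 : E) (hz1 : h z1 < 1 + ‖z1‖) : Bad E := by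
  have h0 := h_zero hU hh
  -- choice of `κ`
  have hz1n : 0 < ‖z1‖ := by
    rw [norm_pos_iff]
    rintro rfl
    rw [h0, norm_zero] at hz1
    linarith
  have hhz1 : ‖z1‖ ≤ h z1 := h_ge hh hU0 z1
  obtain ⟨κ, hκ0, hκ1, hκ⟩ : ∃ κ : ℝ, 0 ≤ κ ∧ κ < 1 ∧ h z1 < 1 + κ * ‖z1‖ := by
    set t := (h z1 - 1) / ‖z1‖ with ht
    have ht1 : t < 1 := by rw [ht, div_lt_one hz1n]; linarith
    refine ⟨max 0 ((t + 1) / 2), le_max_left _ _, ?_, ?_⟩
    · rw [max_lt_iff]; constructor <;> linarith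
    · have h2 : t < max 0 ((t + 1) / 2) := lt_of_lt_of_le (by linarith) (le_max_right _ _)
      rw [ht, div_lt_iff₀ hz1n] at h2
      linarith
  set ε : ℝ := (1 - κ) / 2 with hε
  have hε0 : 0 < ε := by rw [hε]; linarith
  obtain ⟨z, hz1', hz2⟩ := ekeland (fun v => h v + κ * ‖v - z1‖)
    ((h_cont hh).add (by fun_prop)) (fun v => by
      have := h_nonneg hh v
      positivity) z1 hε0
  simp only [sub_self, norm_zero, mul_zero, add_zero] at hz1'
  have hz0 : z ≠ 0 := by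
    rintro rfl
    rw [h0, zero_sub, norm_neg] at hz1'
    linarith
  set κ' : ℝ := κ + ε with hκ'
  have hκ'1 : κ' < 1 := by rw [hκ', hε]; linarith
  have hκ'0 : 0 ≤ κ' := by rw [hκ']; linarith
  have hz : ∀ v, h z - κ' * ‖v‖ ≤ h (z + v) := by
    intro v
    have h1 := hz2 (z + v)
    simp only [add_sub_cancel_left] at h1
    have h2 : ‖z + v - z1‖ ≤ ‖z - z1‖ + ‖v‖ := by
      have : z + v - z1 = (z - z1) + v := by abel
      rw [this]; exact norm_add_le _ _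
    have h3 := mul_le_mul_of_nonneg_left h2 hκ0
    have h4 : κ' * ‖v‖ = κ * ‖v‖ + ε * ‖v‖ := by rw [hκ']; ring
    linarith
  obtain ⟨g0, hg01, hg0⟩ := exists_dual_vector'' ℝ z
  have hg0' : g0 z = ‖z‖ := by simpa using hg0
  set η : ℝ := (1 - κ') / 2 with hη
  have hη0 : 0 < η := by rw [hη]; linarith
  obtain ⟨W, G, y, g, hW, hG, hP, hgW, hn⟩ := exists_states
    (fun (n : ℕ) (G : Submodule ℝ E) (y : E) (g : StrongDual ℝ E) =>
      ‖y‖ = 1 ∧ |‖z + y‖ - h z| ≤ 1 / ((n : ℝ) + 1) ∧ ‖g‖ ≤ 1 ∧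
      h z - 1 / ((n : ℝ) + 1) ≤ g (z + y) ∧ (∀ x ∈ G, |g x| ≤ κ' * ‖x‖) ∧ ‖z‖ / 2 ≤ g0 (z + y))
    (fun n G _ => step hU hU0 hh hz0 hκ'0 hz g0 hg0' G (by positivity)) hη0
  have hzn : 0 < ‖z‖ := norm_pos_iff.2 hz0
  have hhz : ‖z‖ ≤ h z := h_ge hh hU0 z
  have hpos : ∀ k, 0 < ‖z + y k‖ := by
    intro k
    rw [norm_pos_iff]
    intro h1
    have := (hP k).2.2.2.2.2
    rw [h1, map_zero] at this
    linarith
  have hlim1 : Tendsto (fun k => ‖z + y k‖) atTop (𝓝 (h z)) := by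
    rw [tendsto_iff_dist_tendsto_zero]
    refine squeeze_zero (fun _ => dist_nonneg) (fun k => ?_) tendsto_one_div_add_atTop_nhds_zero_nat
    rw [Real.dist_eq]
    exact (hP k).2.1
  have hlim2 : Tendsto (fun k => g k (z + y k)) atTop (𝓝 (h z)) := by
    have h1 : Tendsto (fun k : ℕ => h z - 1 / ((k : ℝ) + 1)) atTop (𝓝 (h z)) := by
      have := (tendsto_one_div_add_atTop_nhds_zero_nat (𝕜 := ℝ)).const_sub (h z)
      rwa [sub_zero] at this
    refine tendsto_of_tendsto_of_tendsto_of_le_of_le h1 hlim1 (fun k => (hP k).2.2.2.1) fun k => ?_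
    have h3 := (g k).le_opNorm (z + y k)
    rw [Real.norm_eq_abs] at h3
    exact (le_abs_self _).trans (h3.trans (mul_le_of_le_one_left (norm_nonneg _) (hP k).2.2.1))
  refine ⟨fun k => ‖z + y k‖⁻¹ • (z + y k), g, g0, κ' / (1 - η), ‖z‖ / 2 / (‖z‖ + 1), ?_, ?_, ?_,
    fun k => (hP k).2.2.1, ?_, ?_, ?_⟩
  · rw [div_lt_one (by rw [hη]; linarith), hη]
    linarith
  · positivity
  · intro k
    rw [norm_smul, norm_inv, norm_norm, inv_mul_cancel₀ (hpos k).ne']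
  · have h1 : Tendsto (fun k => ‖z + y k‖⁻¹ * g k (z + y k)) atTop (𝓝 ((h z)⁻¹ * h z)) :=
      (hlim1.inv₀ (by linarith)).mul hlim2
    rw [inv_mul_cancel₀ (by linarith)] at h1
    refine h1.congr fun k => ?_
    rw [map_smul, smul_eq_mul]
  · intro k
    rw [map_smul, smul_eq_mul]
    have h1 := (hP k).2.2.2.2.2
    have h2 : ‖z + y k‖ ≤ ‖z‖ + 1 := by
      have := norm_add_le z (y k)
      rwa [(hP k).1] at this
    rw [← div_eq_inv_mul]
    have h3 := hpos k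
    have h4 : 0 ≤ g0 (z + y k) := le_trans (by positivity) h1
    gcongr
  · intro V hV G' hG'
    -- bound on the spaces `G n`
    have hb1 : ∀ n, ∀ d ∈ G n, |G' d| ≤ κ' * ‖d‖ := by
      intro n d hd
      have h1 : Tendsto (fun k => |g k d|) V (𝓝 |G' d|) := (hG' d).abs
      refine le_of_tendsto h1 ?_
      filter_upwards [hV (eventually_ge_atTop n)] with k hk
      exact (hP k).2.2.2.2.1 d (hG hk hd)
    have hmem : G' ∈ closure ((⨆ n, W n : Submodule ℝ (StrongDual ℝ E)) : Set (StrongDual ℝ E)) :=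
      mem_closure_of_limit hrefl V g _ (fun n => Submodule.mem_iSup_of_mem (n + 1) (hgW n)) G' hG'
    have h1η : 0 < 1 - η := by rw [hη]; linarith
    apply le_of_forall_pos_le_add
    intro r hr
    -- approximate
    set s : ℝ := r / (1 / (1 - η) + 1) with hs
    have hs0 : 0 < s := by positivity
    obtain ⟨w, hw, hwG⟩ := Metric.mem_closure_iff.1 hmem s hs0
    rw [dist_eq_norm] at hwG
    obtain ⟨n, hwn⟩ := (Submodule.mem_iSup_of_directed W hW.directed_le).1 hw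
    obtain ⟨d, hd, hd1, hd2⟩ := hn n w hwn
    have h2 := hb1 n d hd
    have h3 : |(G' - w) d| ≤ s := by
      have h4 := (G' - w).le_opNorm d
      rw [Real.norm_eq_abs] at h4
      calc _ ≤ _ := h4
        _ ≤ s * 1 := mul_le_mul hwG.le hd1 (norm_nonneg _) hs0.le
        _ = s := mul_one _
    have h5 : (G' - w) d = G' d - w d := rfl
    rw [h5] at h3
    have h6 : (1 - η) * ‖w‖ ≤ κ' + s := by
      have h7 := (abs_le.1 h3).1
      have h8 := (abs_le.1 h2).2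
      have h9 : κ' * ‖d‖ ≤ κ' := mul_le_of_le_one_right hκ'0 hd1
      linarith
    have h7 : ‖w‖ ≤ (κ' + s) / (1 - η) := by rw [le_div_iff₀ h1η]; linarith
    have h8 : ‖G'‖ ≤ ‖w‖ + s := by
      have := norm_le_norm_add_norm_sub' G' w
      linarith
    have h9 : (κ' + s) / (1 - η) + s = κ' / (1 - η) + s * (1 / (1 - η) + 1) := by
      field_simp
      ring
    have h10 : s * (1 / (1 - η) + 1) = r := by
      rw [hs]
      have : (1 / (1 - η) + 1) ≠ 0 := by positivity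
      field_simp
    linarith

end main

end Pool.Agent.TH327.WMP
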