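import Mathlib
import Pool.Agent.TH327.WMP3

set_option autoImplicit false

namespace Pool.Agent.TH327.WMP

open Filter Topology Set

variable {E : Type*} [NormedAddCommGroup E] [NormedSpace ℝ E]

/-- a point in the closed convex hulls of all tails of a bounded sequence of a reflexive space -/
theorem tail_point (hE : Function.Surjective (NormedSpace.inclusionInDoubleDual ℝ E)) (s : ℕ → E)
    (C : ℝ) (hs : ∀ n, ‖s n‖ ≤ C) :
    ∃ z : E, ∀ m : ℕ, z ∈ closure (convexHull ℝ (s '' {l | m ≤ l})) := by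
  obtain ⟨φ, -, hφ⟩ := JS.exists_ultralimit (Filter.hyperfilter ℕ)
    (fun n => NormedSpace.inclusionInDoubleDual ℝ E (s n)) C
    (fun n => (NormedSpace.double_dual_bound ℝ E (s n)).trans (hs n))
  obtain ⟨z, hz⟩ := hE φ
  refine ⟨z, fun m => ?_⟩
  by_contra hcon
  obtain ⟨f, r, hf1, hf2⟩ := geometric_hahn_banach_closed_point
    (convex_convexHull ℝ (s '' {l | m ≤ l})).closure isClosed_closure hcon
  have h1 : Tendsto (fun n => f (s n)) (Filter.hyperfilter ℕ) (𝓝 (f z)) := by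
    have h2 := hφ f
    rw [← hz] at h2
    exact h2
  have h3 := h1.eventually (lt_mem_nhds hf2)
  have h4 : ∀ᶠ n in (Filter.hyperfilter ℕ : Filter ℕ), m ≤ n := by
    have h5 : ∀ᶠ k in (cofinite : Filter ℕ), m ≤ k := by
      rw [Nat.cofinite_eq_atTop]
      exact eventually_ge_atTop m
    exact h5.filter_mono Filter.hyperfilter_le_cofinite
  obtain ⟨n, hn, hn'⟩ := (h3.and h4).exists
  have h4 := hf1 (s n) (subset_closure (subset_convexHull ℝ _ ⟨n, hn', rfl⟩))
  exact lt_asymm hn h4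

/-- a sequence which is almost `ℓ₁`-orthogonal does not exist in a reflexive space -/
theorem no_l1 (hE : Function.Surjective (NormedSpace.inclusionInDoubleDual ℝ E))
    (W : ℕ → Submodule ℝ E) (hW : Monotone W) (y : ℕ → E) (hy : ∀ n, ‖y n‖ = 1)
    (hyW : ∀ n, y n ∈ W (n + 1))
    (h : ∀ n, ∀ x ∈ W n, ∀ s : ℝ, (1 - (1 / 2 : ℝ) ^ (n + 2)) * (‖x‖ + |s|) ≤ ‖x + s • y n‖) :
    False := by
  classical
  obtain ⟨z, hz⟩ := tail_point hE y 1 (fun n => (hy n).le)
  -- the product of the constants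
  set p : ℕ → ℝ := fun n => 1 / 2 + (1 / 2 : ℝ) ^ (n + 1) with hp
  have hp1 : ∀ n, p (n + 1) ≤ (1 - (1 / 2 : ℝ) ^ (n + 2)) * p n := by
    intro n
    simp only [hp]
    have e1 : (1 / 2 : ℝ) ^ (n + 1) = (1 / 2) * (1 / 2) ^ n := by ring
    have e2 : (1 / 2 : ℝ) ^ (n + 2) = (1 / 4) * (1 / 2) ^ n := by ring
    rw [e1, e2]
    have e4 : (0 : ℝ) < (1 / 2) ^ n := by positivity
    have e5 : (1 / 2 : ℝ) ^ n ≤ 1 := pow_le_one₀ (by norm_num) (by norm_num)
    nlinarith
  have hphalf : ∀ n, 1 / 2 ≤ p n := fun n => by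
    simp only [hp]
    have : (0 : ℝ) < (1 / 2) ^ (n + 1) := by positivity
    linarith
  have hp0 : ∀ n, p n ≤ 1 := fun n => by
    simp only [hp]
    have : (1 / 2 : ℝ) ^ (n + 1) ≤ 1 / 2 := by
      have := pow_le_pow_of_le_one (by norm_num : (0 : ℝ) ≤ 1 / 2) (by norm_num) (Nat.le_add_left 1 n)
      simpa using this
    linarith
  -- lower estimate
  have key : ∀ m, ∀ x ∈ W m, ∀ (c : ℕ → ℝ) (n : ℕ), m ≤ n →
      x + ∑ k ∈ Finset.Ico m n, c k • y k ∈ W n ∧
      p n * (‖x‖ + ∑ k ∈ Finset.Ico m n, |c k|) ≤ ‖x + ∑ k ∈ Finset.Ico m n, c k • y k‖ := by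
    intro m x hx c n hmn
    induction n, hmn using Nat.le_induction with
    | base =>
      refine ⟨by simpa using hx, ?_⟩
      simp only [Finset.Ico_self, Finset.sum_empty, add_zero]
      exact mul_le_of_le_one_left (norm_nonneg _) (hp0 m)
    | succ n hmn ih =>
      rw [Finset.sum_Ico_succ_top hmn, Finset.sum_Ico_succ_top hmn, ← add_assoc]
      obtain ⟨ih1, ih2⟩ := ih
      refine ⟨(W (n + 1)).add_mem (hW (Nat.le_succ n) ih1) ((W (n + 1)).smul_mem _ (hyW n)), ?_⟩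
      refine le_trans ?_ (h n _ ih1 (c n))
      have e1 : 0 ≤ ‖x‖ + ∑ k ∈ Finset.Ico m n, |c k| := by positivity
      have e2 : 0 ≤ 1 - (1 / 2 : ℝ) ^ (n + 2) := by
        have : (1 / 2 : ℝ) ^ (n + 2) ≤ 1 := pow_le_one₀ (by norm_num) (by norm_num)
        linarith
      have e3 : p n * |c n| ≤ |c n| := mul_le_of_le_one_left (abs_nonneg _) (hp0 n)
      calc p (n + 1) * (‖x‖ + (∑ k ∈ Finset.Ico m n, |c k| + |c n|))
          ≤ (1 - (1 / 2 : ℝ) ^ (n + 2)) * p n * (‖x‖ + (∑ k ∈ Finset.Ico m n, |c k| + |c n|)) := by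
            refine mul_le_mul_of_nonneg_right (hp1 n) ?_
            positivity
        _ = (1 - (1 / 2 : ℝ) ^ (n + 2)) * (p n * (‖x‖ + ∑ k ∈ Finset.Ico m n, |c k|) +
              p n * |c n|) := by ring
        _ ≤ (1 - (1 / 2 : ℝ) ^ (n + 2)) * (‖x + ∑ k ∈ Finset.Ico m n, c k • y k‖ + |c n|) := by
            refine mul_le_mul_of_nonneg_left ?_ e2
            linarith
  -- convex hulls
  let Z : ℕ → Set E := fun m => {w | ∃ (M : ℕ) (a : ℕ → ℝ), m ≤ M ∧ (∀ i, 0 ≤ a i) ∧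
    (∀ i, M ≤ i → a i = 0) ∧ ∑ i ∈ Finset.Ico m M, a i = 1 ∧ w = ∑ i ∈ Finset.Ico m M, a i • y i}
  have hext : ∀ (m M M' : ℕ) (a : ℕ → ℝ), M ≤ M' → (∀ i, M ≤ i → a i = 0) →
      ∑ i ∈ Finset.Ico m M, a i • y i = ∑ i ∈ Finset.Ico m M', a i • y i := by
    intro m M M' a hMM ha
    refine Finset.sum_subset (Finset.Ico_subset_Ico_right hMM) ?_
    intro i hi hi'
    rw [ha i (by
      rw [Finset.mem_Ico] at hi hi'
      omega), zero_smul]
  have hext' : ∀ (m M M' : ℕ) (a : ℕ → ℝ), M ≤ M' → (∀ i, M ≤ i → a i = 0) →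
      ∑ i ∈ Finset.Ico m M, a i = ∑ i ∈ Finset.Ico m M', a i := by
    intro m M M' a hMM ha
    refine Finset.sum_subset (Finset.Ico_subset_Ico_right hMM) ?_
    intro i hi hi'
    rw [ha i (by
      rw [Finset.mem_Ico] at hi hi'
      omega)]
  have hZ : ∀ m, convexHull ℝ (y '' {l | m ≤ l}) ⊆ Z m := by
    intro m
    refine convexHull_min ?_ ?_
    · rintro _ ⟨l, hl, rfl⟩
      have hl' : m ≤ l := hl
      refine ⟨l + 1, fun i => if i = l then 1 else 0, by omega, ?_, ?_, ?_, ?_⟩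
      · intro i; simp only; split_ifs <;> norm_num
      · intro i hi
        exact if_neg (by omega)
      · rw [Finset.sum_ite_eq' (Finset.Ico m (l + 1)) l]
        simp [hl']
      · simp only [ite_smul, one_smul, zero_smul]
        rw [Finset.sum_ite_eq' (Finset.Ico m (l + 1)) l]
        simp [hl']
    · rintro w ⟨M, a, hM, ha, ha0, ha1, rfl⟩ w' ⟨M', a', hM', ha', ha0', ha1', rfl⟩ t t' ht ht' htt
      refine ⟨max M M', fun i => t * a i + t' * a' i, hM.trans (le_max_left _ _), ?_, ?_, ?_, ?_⟩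
      · intro i
        have := ha i
        have := ha' i
        positivity
      · intro i hi
        show t * a i + t' * a' i = 0
        rw [ha0 i ((le_max_left _ _).trans hi), ha0' i ((le_max_right _ _).trans hi)]
        simp
      · rw [Finset.sum_add_distrib, ← Finset.mul_sum, ← Finset.mul_sum,
          ← hext' m M _ a (le_max_left _ _) ha0, ← hext' m M' _ a' (le_max_right _ _) ha0', ha1, ha1']
        linarith
      · rw [hext m M _ a (le_max_left _ _) ha0, hext m M' _ a' (le_max_right _ _) ha0',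
          Finset.smul_sum, Finset.smul_sum, ← Finset.sum_add_distrib]
        refine Finset.sum_congr rfl fun i _ => ?_
        rw [smul_smul, smul_smul, ← add_smul]
  -- conclusion
  obtain ⟨x, hx, hxz⟩ := Metric.mem_closure_iff.1 (hz 0) (1 / 8) (by norm_num)
  obtain ⟨M, a, hM, ha, ha0, ha1, hxa⟩ := hZ 0 hx
  have hxW : x ∈ W M := by
    have := (key 0 0 (Submodule.zero_mem _) a M hM).1
    rw [zero_add, ← hxa] at this
    exact this
  obtain ⟨v, hv, hvz⟩ := Metric.mem_closure_iff.1 (hz M) (1 / 8) (by norm_num)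
  obtain ⟨M', b, hM', hb, hb0, hb1, hvb⟩ := hZ M hv
  have h1 := (key M x hxW (fun i => - b i) M' hM').2
  have h2 : x + ∑ k ∈ Finset.Ico M M', (fun i => - b i) k • y k = x - v := by
    rw [hvb, sub_eq_add_neg, ← Finset.sum_neg_distrib]
    congr 1
    refine Finset.sum_congr rfl fun i _ => ?_
    simp
  have h3 : ∑ k ∈ Finset.Ico M M', |(fun i => - b i) k| = 1 := by
    rw [← hb1]
    refine Finset.sum_congr rfl fun i _ => ?_
    simp only [abs_neg]
    exact abs_of_nonneg (hb i)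
  rw [h2, h3] at h1
  have h4 : ‖x - v‖ < 1 / 4 := by
    have h5 : ‖x - v‖ ≤ ‖z - x‖ + ‖z - v‖ := by
      have : x - v = -(z - x) + (z - v) := by abel
      rw [this]
      refine (norm_add_le _ _).trans ?_
      rw [norm_neg]
    rw [dist_eq_norm] at hxz hvz
    linarith
  have h5 := hphalf M'
  have h6 := norm_nonneg x
  nlinarith

section main

variable {U : Ultrafilter E} {h : E → ℝ} (hU : ∀ᶠ y in (U : Filter E), ‖y‖ = 1)
  (hh : ∀ z, Tendsto (fun y => ‖z + y‖) U (𝓝 (h z)))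

include hU hh in
theorem l1_step (hge : ∀ z, 1 + ‖z‖ ≤ h z) (G : Submodule ℝ E) [FiniteDimensional ℝ G] {ε : ℝ}
    (hε : 0 < ε) : ∃ y : E, ‖y‖ = 1 ∧ ∀ x ∈ G, ∀ s : ℝ, (1 - ε) * (‖x‖ + |s|) ≤ ‖x + s • y‖ := by
  have hprop : ProperSpace G := FiniteDimensional.proper_real G
  set R : ℝ := 2 / ε with hR
  have hK : IsCompact ((fun x : G => (x : E)) '' Metric.closedBall 0 R) :=
    (isCompact_closedBall (0 : G) R).image (by fun_prop)
  obtain ⟨y, hy1, hy2⟩ := (hU.and (uniform hh hK hε)).exists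
  have key : ∀ x ∈ G, (1 - ε) * (‖x‖ + 1) ≤ ‖x + y‖ := by
    intro x hx
    rcases le_or_gt ‖x‖ R with hxR | hxR
    · have f1 := hy2 x ⟨⟨x, hx⟩, by
        rw [mem_closedBall_zero_iff]
        exact hxR, rfl⟩
      have f2 := (abs_le.1 f1).1
      have f3 := hge x
      have f4 := norm_nonneg x
      nlinarith
    · have f1 : ‖x‖ - 1 ≤ ‖x + y‖ := by
        have f2 : x = (x + y) - y := by abel
        have f3 : ‖x‖ ≤ ‖x + y‖ + ‖y‖ := by
          calc ‖x‖ = ‖(x + y) - y‖ := by rw [← f2]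
            _ ≤ _ := norm_sub_le _ _
        rw [hy1] at f3
        linarith
      rw [hR, div_lt_iff₀ hε] at hxR
      nlinarith [norm_nonneg x]
  refine ⟨y, hy1, fun x hx s => ?_⟩
  rcases eq_or_ne s 0 with hs | hs
  · rw [hs]
    simp only [abs_zero, add_zero, zero_smul]
    nlinarith [norm_nonneg x]
  · have h1 := key (s⁻¹ • x) (G.smul_mem _ hx)
    have hs0 : 0 < |s| := abs_pos.2 hs
    have h2 := mul_le_mul_of_nonneg_left h1 hs0.le
    have h3 : |s| * ‖s⁻¹ • x + y‖ = ‖x + s • y‖ := by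
      rw [← Real.norm_eq_abs, ← norm_smul, smul_add, smul_smul, mul_inv_cancel₀ hs, one_smul]
    rw [h3, norm_smul, norm_inv, Real.norm_eq_abs] at h2
    refine le_trans (le_of_eq ?_) h2
    field_simp

include hU hh in
theorem l1_false (hrefl : Function.Surjective (NormedSpace.inclusionInDoubleDual ℝ E))
    (hge : ∀ z, 1 + ‖z‖ ≤ h z) : False := by
  classical
  let St := {G : Submodule ℝ E // FiniteDimensional ℝ G}
  have hstep : ∀ (s : St) (n : ℕ), ∃ y : E, ‖y‖ = 1 ∧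
      ∀ x ∈ s.1, ∀ r : ℝ, (1 - (1 / 2 : ℝ) ^ (n + 2)) * (‖x‖ + |r|) ≤ ‖x + r • y‖ := by
    rintro ⟨G, hG⟩ n
    have hG' : FiniteDimensional ℝ G := hG
    exact l1_step hU hh hge G (by positivity)
  choose Y hY1 hY2 using hstep
  let nx : St → ℕ → St := fun s n => ⟨s.1 ⊔ Submodule.span ℝ {Y s n}, by
    have := s.2
    infer_instance⟩
  let st : ℕ → St := fun n => Nat.rec ⟨⊥, inferInstance⟩ (fun n s => nx s n) n
  refine no_l1 hrefl (fun n => (st n).1) (monotone_nat_of_le_succ fun n => ?_) (fun n => Y (st n) n)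
    (fun n => hY1 _ _) (fun n => ?_) (fun n => hY2 (st n) n)
  · exact (le_sup_left : (st n).1 ≤ (st n).1 ⊔ Submodule.span ℝ {Y (st n) n})
  · exact (le_sup_right : Submodule.span ℝ {Y (st n) n} ≤ (st n).1 ⊔ Submodule.span ℝ {Y (st n) n})
      (Submodule.mem_span_singleton_self _)

end main

/-- every infinite-dimensional reflexive space has a bad configuration -/
theorem bad [CompleteSpace E] (hE : ¬ FiniteDimensional ℝ E)
    (hrefl : Function.Surjective (NormedSpace.inclusionInDoubleDual ℝ E)) : Bad E := by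
  obtain ⟨U, hU, hU0⟩ := exists_null hE
  obtain ⟨h, hh⟩ := exists_h U hU
  by_cases hcase : ∃ z1, h z1 < 1 + ‖z1‖
  · obtain ⟨z1, hz1⟩ := hcase
    exact bad_of_lt hU hU0 hh hrefl z1 hz1
  · push Not at hcase
    exact (l1_false hU hh hrefl hcase).elim

end Pool.Agent.TH327.WMP
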