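import Mathlib

/-!
Euclidean spaces are not uniformly complemented in spaces of continuous functions: if
`a : ℓ₂ⁿ → C(K)` and `b : C(K) → ℓ₂ⁿ` satisfy `b ∘ a = id`, then `√n ≤ (9/4) ‖a‖ ‖b‖`.
The proof of Khintchine's inequality below is the one of the module `Pool.Agent.H799R2.Grid`.
-/

set_option autoImplicit false

namespace Pool.Agent.TH327.CKDiam

open Finset

/-- The sign of a Boolean. -/
def sg (b : Bool) : ℝ := if b then 1 else -1

theorem sum_cons {n : ℕ} (f : (Fin (n + 1) → Bool) → ℝ) :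
    ∑ ε, f ε = ∑ ε : Fin n → Bool, (f (Fin.cons true ε) + f (Fin.cons false ε)) := by
  rw [← Equiv.sum_comp (Fin.consEquiv fun _ => Bool), Fintype.sum_prod_type, Finset.sum_comm]
  refine Finset.sum_congr rfl fun ε _ => ?_
  rw [Fintype.sum_bool]
  rfl

/-- The Rademacher sum. -/
def Z {d : ℕ} (ε : Fin d → Bool) (a : Fin d → ℝ) : ℝ := ∑ i, sg (ε i) * a i

theorem Z_cons {n : ℕ} (b : Bool) (ε : Fin n → Bool) (a : Fin (n + 1) → ℝ) :
    Z (Fin.cons b ε : Fin (n + 1) → Bool) a = sg b * a 0 + Z ε fun i => a i.succ := by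
  unfold Z
  rw [Fin.sum_univ_succ]
  simp

theorem sum_sq {d : ℕ} (a : Fin d → ℝ) : ∑ ε, Z ε a ^ 2 = 2 ^ d * ∑ i, a i ^ 2 := by
  induction d with
  | zero => simp [Z]
  | succ n ih =>
    rw [sum_cons]
    simp_rw [Z_cons]
    have : ∀ ε : Fin n → Bool, (sg true * a 0 + Z ε fun i => a i.succ) ^ 2 +
        (sg false * a 0 + Z ε fun i => a i.succ) ^ 2 =
        2 * a 0 ^ 2 + 2 * (Z ε fun i => a i.succ) ^ 2 := by
      intro ε; simp [sg]; ring
    simp_rw [this]
    have e1 : ∑ ε : Fin n → Bool, (2 * a 0 ^ 2 + 2 * (Z ε fun i => a i.succ) ^ 2) =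
        2 ^ n * (2 * a 0 ^ 2) + 2 * ∑ ε : Fin n → Bool, (Z ε fun i => a i.succ) ^ 2 := by
      rw [Finset.sum_add_distrib, Finset.mul_sum]
      simp
    rw [e1, ih, Fin.sum_univ_succ]
    ring

theorem sum_four {d : ℕ} (a : Fin d → ℝ) :
    ∑ ε, Z ε a ^ 4 ≤ 3 * 2 ^ d * (∑ i, a i ^ 2) ^ 2 := by
  induction d with
  | zero => simp [Z]
  | succ n ih =>
    rw [sum_cons]
    simp_rw [Z_cons]
    have : ∀ ε : Fin n → Bool, (sg true * a 0 + Z ε fun i => a i.succ) ^ 4 +
        (sg false * a 0 + Z ε fun i => a i.succ) ^ 4 =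
        2 * a 0 ^ 4 + 12 * a 0 ^ 2 * (Z ε fun i => a i.succ) ^ 2 +
          2 * (Z ε fun i => a i.succ) ^ 4 := by
      intro ε; simp [sg]; ring
    simp_rw [this]
    have e1 : ∑ ε : Fin n → Bool, (2 * a 0 ^ 4 + 12 * a 0 ^ 2 * (Z ε fun i => a i.succ) ^ 2 +
          2 * (Z ε fun i => a i.succ) ^ 4) =
        2 ^ n * (2 * a 0 ^ 4) + 12 * a 0 ^ 2 * ∑ ε : Fin n → Bool, (Z ε fun i => a i.succ) ^ 2 +
          2 * ∑ ε : Fin n → Bool, (Z ε fun i => a i.succ) ^ 4 := by
      rw [Finset.sum_add_distrib, Finset.sum_add_distrib, Finset.mul_sum, Finset.mul_sum]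
      simp
    rw [e1, sum_sq, Fin.sum_univ_succ]
    have h2 := ih fun i => a i.succ
    set σ := ∑ i : Fin n, a i.succ ^ 2 with hσ
    have h3 : (0 : ℝ) ≤ 2 ^ n := by positivity
    have h4 : (2 : ℝ) ^ (n + 1) = 2 * 2 ^ n := by ring
    rw [h4]
    have h5 : (0 : ℝ) ≤ 2 ^ n * a 0 ^ 4 := by positivity
    nlinarith

/-- Khintchine's inequality. -/
theorem khintchine {d : ℕ} (a : Fin d → ℝ) :
    4 / 9 * Real.sqrt (∑ i, a i ^ 2) ≤ (∑ ε, |Z ε a|) / 2 ^ d := by
  set q := ∑ i, a i ^ 2 with hq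
  have hq0 : 0 ≤ q := Finset.sum_nonneg fun i _ => sq_nonneg _
  set σ := Real.sqrt q with hσ
  have hσ0 : 0 ≤ σ := Real.sqrt_nonneg _
  have hσ2 : σ ^ 2 = q := Real.sq_sqrt hq0
  have h2n : (0 : ℝ) < 2 ^ d := by positivity
  rw [le_div_iff₀ h2n]
  rcases hσ0.eq_or_lt with h0 | hpos
  · rw [← h0]; simp; exact Finset.sum_nonneg fun _ _ => abs_nonneg _
  · -- pointwise inequality
    have hpt : ∀ ε : Fin d → Bool, 2 * (Z ε a ^ 2 / (3 * σ) - Z ε a ^ 4 / (27 * σ ^ 3)) ≤
        |Z ε a| := by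
      intro ε
      set z := |Z ε a| with hz
      have hz0 : 0 ≤ z := abs_nonneg _
      have e2 : Z ε a ^ 2 = z ^ 2 := (sq_abs _).symm
      have e4 : Z ε a ^ 4 = z ^ 4 := by
        have : Z ε a ^ 4 = (Z ε a ^ 2) ^ 2 := by ring
        rw [this, e2]; ring
      rw [e2, e4]
      set u := z / (3 * σ) with hu
      have hu0 : 0 ≤ u := by positivity
      have hzu : z = 3 * σ * u := by rw [hu]; field_simp
      have e5 : z ^ 2 / (3 * σ) - z ^ 4 / (27 * σ ^ 3) = 3 * σ * (u ^ 2 - u ^ 4) := by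
        rw [hzu]; field_simp; ring
      rw [e5]
      have h6 : 2 * (u ^ 2 - u ^ 4) ≤ u := by
        have h7 : 2 * (u - u ^ 3) ≤ 1 := by
          nlinarith [mul_nonneg hu0 (sq_nonneg (u - 1 / 2)), sq_nonneg (u - 5 / 8)]
        nlinarith [mul_le_mul_of_nonneg_left h7 hu0]
      rw [hzu]
      nlinarith [mul_le_mul_of_nonneg_left h6 (by positivity : 0 ≤ 3 * σ)]
    have hsum := Finset.sum_le_sum (s := Finset.univ) fun ε _ => hpt ε
    rw [← Finset.mul_sum, Finset.sum_sub_distrib, ← Finset.sum_div, ← Finset.sum_div,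
      sum_sq, ← hq] at hsum
    have h4 := sum_four a
    rw [← hq] at h4
    have h8 : (∑ ε, Z ε a ^ 4) / (27 * σ ^ 3) ≤ 3 * 2 ^ d * q ^ 2 / (27 * σ ^ 3) :=
      div_le_div_of_nonneg_right h4 (by positivity)
    have h9 : 2 * (2 ^ d * q / (3 * σ) - 3 * 2 ^ d * q ^ 2 / (27 * σ ^ 3)) =
        4 / 9 * σ * 2 ^ d := by
      rw [← hσ2]; field_simp; ring
    linarith

variable {K : Type*} [TopologicalSpace K] [CompactSpace K] [T2Space K]

/-- approximation of finitely many continuous functions with a partition of unity -/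
theorem exists_approx {ι : Type*} [Finite ι] (f : ι → C(K, ℝ)) {η : ℝ} (hη : 0 < η) :
    ∃ (m : ℕ) (φ : Fin m → C(K, ℝ)) (t : Fin m → K), (∀ j x, 0 ≤ φ j x) ∧ (∀ x, ∑ j, φ j x = 1) ∧
      ∀ i, ‖f i - ∑ j, f i (t j) • φ j‖ ≤ η := by
  classical
  set U : K → Set K := fun t => {x | ∀ i, |f i x - f i t| < η} with hU
  have hUo : ∀ t, IsOpen (U t) := by
    intro t
    rw [hU]
    simp only [Set.ofPred_forall]
    exact isOpen_iInter_of_finite fun i =>
      isOpen_lt (((f i).continuous.sub continuous_const).abs) continuous_const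
  obtain ⟨T, hT⟩ := isCompact_univ.elim_finite_subcover U hUo (fun x _ => by
    refine Set.mem_iUnion.2 ⟨x, fun i => ?_⟩
    rw [sub_self, abs_zero]
    exact hη)
  -- enumerate the finite set
  set m := T.card with hm
  let e : Fin m ≃ T := T.equivFin.symm
  obtain ⟨p, hp⟩ := PartitionOfUnity.exists_isSubordinate_of_locallyFinite isClosed_univ
    (fun j : Fin m => U (e j)) (fun j => hUo _) (locallyFinite_of_finite _) (by
      intro x hx
      obtain ⟨t, ht⟩ := Set.mem_iUnion.1 (hT hx)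
      obtain ⟨htT, hxt⟩ := Set.mem_iUnion.1 ht
      refine Set.mem_iUnion.2 ⟨e.symm ⟨t, htT⟩, ?_⟩
      rw [e.apply_symm_apply]
      exact hxt)
  refine ⟨m, fun j => p j, fun j => (e j : K), fun j x => p.nonneg j x, fun x => ?_, fun i => ?_⟩
  · have := p.sum_eq_one (Set.mem_univ x)
    rwa [finsum_eq_sum_of_fintype] at this
  · rw [ContinuousMap.norm_le _ hη.le]
    intro x
    have h1 : ∑ j, p j x = 1 := by
      have := p.sum_eq_one (Set.mem_univ x)
      rwa [finsum_eq_sum_of_fintype] at this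
    have h2 : (f i - ∑ j, f i (e j : K) • p j) x = ∑ j, (f i x - f i (e j : K)) * p j x := by
      rw [ContinuousMap.sub_apply, ContinuousMap.sum_apply]
      simp only [ContinuousMap.smul_apply, smul_eq_mul, sub_mul]
      rw [Finset.sum_sub_distrib, ← Finset.mul_sum, h1, mul_one]
    rw [h2, Real.norm_eq_abs]
    calc |∑ j, (f i x - f i (e j : K)) * p j x| ≤ ∑ j, |(f i x - f i (e j : K)) * p j x| :=
          Finset.abs_sum_le_sum_abs _ _
      _ ≤ ∑ j, η * p j x := by
          refine Finset.sum_le_sum fun j _ => ?_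
          rw [abs_mul, abs_of_nonneg (p.nonneg j x)]
          rcases eq_or_ne (p j x) 0 with h0 | h0
          · rw [h0]; simp
          · have hx : x ∈ U (e j) := hp j (subset_tsupport _ h0)
            exact mul_le_mul_of_nonneg_right (hx i).le (p.nonneg j x)
      _ = η := by rw [← Finset.mul_sum, h1, mul_one]

universe u

/-- Euclidean space with index set in an arbitrary universe -/
abbrev En (n : ℕ) : Type u := EuclideanSpace ℝ (ULift.{u} (Fin n))

theorem cs {n : ℕ} (x y : Fin n → ℝ) :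
    ∑ i, x i * y i ≤ Real.sqrt (∑ i, x i ^ 2) * Real.sqrt (∑ i, y i ^ 2) :=
  Real.sum_mul_le_sqrt_mul_sqrt _ _ _

theorem sum_ulift {n : ℕ} (f : ULift.{u} (Fin n) → ℝ) : ∑ i, f i = ∑ i : Fin n, f ⟨i⟩ :=
  (Equiv.ulift.sum_comp (fun i : Fin n => f ⟨i⟩)).symm ▸ rfl

theorem main_ineq (n : ℕ) (a : En.{u} n →L[ℝ] C(K, ℝ)) (b : C(K, ℝ) →L[ℝ] En.{u} n)
    (hab : ∀ e, b (a e) = e) : Real.sqrt n ≤ 9 / 4 * (‖a‖ * ‖b‖) := by
  classical
  have ha0 : 0 ≤ ‖a‖ := a.opNorm_nonneg
  have hb0 : 0 ≤ ‖b‖ := b.opNorm_nonneg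
  set e : Fin n → En.{u} n := fun i => EuclideanSpace.single ⟨i⟩ (1 : ℝ) with he
  set β : Fin n → C(K, ℝ) → ℝ := fun i f => b f ⟨i⟩ with hβ
  have hβadd : ∀ i f g, β i (f + g) = β i f + β i g := fun i f g => by
    simp only [hβ, map_add]; rfl
  have hβsmul : ∀ i (c : ℝ) f, β i (c • f) = c * β i f := fun i c f => by
    simp only [hβ, map_smul]; rfl
  have hβsub : ∀ i f g, β i (f - g) = β i f - β i g := fun i f g => by
    simp only [hβ, map_sub]; rfl
  have hβsum : ∀ i (m : ℕ) (g : Fin m → C(K, ℝ)), β i (∑ j, g j) = ∑ j, β i (g j) := by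
    intro i m g
    let L : C(K, ℝ) →ₗ[ℝ] ℝ := ⟨⟨β i, hβadd i⟩, hβsmul i⟩
    exact map_sum L g Finset.univ
  have hnormb : ∀ f, Real.sqrt (∑ i, β i f ^ 2) ≤ ‖b‖ * ‖f‖ := by
    intro f
    refine le_trans (le_of_eq ?_) (b.le_opNorm f)
    rw [EuclideanSpace.norm_eq, sum_ulift]
    simp only [Real.norm_eq_abs, sq_abs, hβ]
  have hβle : ∀ i f, |β i f| ≤ ‖b‖ * ‖f‖ := by
    intro i f
    refine le_trans ?_ (hnormb f)
    rw [← Real.sqrt_sq_eq_abs]
    exact Real.sqrt_le_sqrt (Finset.single_le_sum (f := fun i => β i f ^ 2)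
      (fun j _ => sq_nonneg _) (Finset.mem_univ i))
  have hae : ∀ t, Real.sqrt (∑ i, (a (e i) t) ^ 2) ≤ ‖a‖ := by
    intro t
    set q := ∑ i, (a (e i) t) ^ 2 with hq
    have hq0 : 0 ≤ q := Finset.sum_nonneg fun i _ => sq_nonneg _
    set c : En.{u} n := ∑ i, (a (e i) t) • e i with hc
    have h1 : a c t = q := by
      rw [hc, map_sum, ContinuousMap.sum_apply, hq]
      refine Finset.sum_congr rfl fun i _ => ?_
      rw [map_smul, ContinuousMap.smul_apply, smul_eq_mul, sq]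
    have hcc : ∀ i : Fin n, c ⟨i⟩ = a (e i) t := by
      intro i
      have : c ⟨i⟩ = ∑ j, (a (e j) t) * (e j) ⟨i⟩ := by
        rw [hc]
        have : (∑ j, (a (e j) t) • e j : En.{u} n) ⟨i⟩ = ∑ j, ((a (e j) t) • e j : En.{u} n) ⟨i⟩ := by
          rw [WithLp.ofLp_sum, Finset.sum_apply]
        rw [this]
        rfl
      rw [this, Finset.sum_eq_single i]
      · simp [he]
      · intro j _ hj
        simp [he, hj.symm]
      · simp
    have h2 : ‖c‖ = Real.sqrt q := by
      rw [EuclideanSpace.norm_eq, sum_ulift, hq]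
      simp only [Real.norm_eq_abs, sq_abs, hcc]
    have h3 : q ≤ ‖a‖ * Real.sqrt q := by
      rw [← h2, ← h1]
      exact (le_abs_self _).trans (((a c).norm_coe_le_norm t).trans (a.le_opNorm c))
    have h4 := Real.mul_self_sqrt hq0
    have h5 := Real.sqrt_nonneg q
    rcases h5.eq_or_lt with h6 | h6
    · rw [← h6]; exact ha0
    · nlinarith
  have hdelta : ∀ i, β i (a (e i)) = 1 := by
    intro i
    simp only [hβ, hab, he]
    simp
  -- the main estimate with error term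
  have key : ∀ η : ℝ, 0 < η → (n : ℝ) ≤ 9 / 4 * (‖a‖ * ‖b‖) * Real.sqrt n + n * (‖b‖ * η) := by
    intro η hη
    obtain ⟨m, φ, t, hφ0, hφ1, happ⟩ := exists_approx (fun i => a (e i)) hη
    have h1 : (n : ℝ) = ∑ i : Fin n, β i (∑ j, a (e i) (t j) • φ j) +
        ∑ i : Fin n, β i (a (e i) - ∑ j, a (e i) (t j) • φ j) := by
      rw [← Finset.sum_add_distrib]
      have : ∀ i : Fin n, β i (∑ j, a (e i) (t j) • φ j) +
          β i (a (e i) - ∑ j, a (e i) (t j) • φ j) = 1 := by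
        intro i
        rw [hβsub, hdelta]
        ring
      rw [Finset.sum_congr rfl fun i _ => this i]
      simp
    have h2 : ∑ i : Fin n, β i (a (e i) - ∑ j, a (e i) (t j) • φ j) ≤ n * (‖b‖ * η) := by
      have : ∑ i : Fin n, β i (a (e i) - ∑ j, a (e i) (t j) • φ j) ≤ ∑ i : Fin n, ‖b‖ * η := by
        refine Finset.sum_le_sum fun i _ => ?_
        exact (le_abs_self _).trans ((hβle i _).trans
          (mul_le_mul_of_nonneg_left (happ i) hb0))
      simpa using this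
    have h3 : ∑ i : Fin n, β i (∑ j, a (e i) (t j) • φ j) =
        ∑ j, ∑ i : Fin n, a (e i) (t j) * β i (φ j) := by
      rw [Finset.sum_comm]
      refine Finset.sum_congr rfl fun i _ => ?_
      rw [hβsum]
      exact Finset.sum_congr rfl fun j _ => hβsmul i _ _
    have h4 : ∑ j, ∑ i : Fin n, a (e i) (t j) * β i (φ j) ≤
        ‖a‖ * ∑ j, Real.sqrt (∑ i, β i (φ j) ^ 2) := by
      rw [Finset.mul_sum]
      refine Finset.sum_le_sum fun j _ => ?_
      refine (cs _ _).trans ?_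
      exact mul_le_mul_of_nonneg_right (hae (t j)) (Real.sqrt_nonneg _)
    have h5 : ∀ ε : Fin n → Bool, ∑ j, |Z ε (fun i => β i (φ j))| ≤ Real.sqrt n * ‖b‖ := by
      intro ε
      set σ : Fin m → ℝ := fun j => if 0 ≤ Z ε (fun i => β i (φ j)) then 1 else -1 with hσ
      have hσabs : ∀ j, |Z ε (fun i => β i (φ j))| = σ j * Z ε (fun i => β i (φ j)) := by
        intro j
        simp only [hσ]
        split_ifs with h
        · rw [abs_of_nonneg h, one_mul]
        · rw [abs_of_neg (not_le.1 h)]; ring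
      have hσ1 : ∀ j, |σ j| = 1 := by
        intro j
        simp only [hσ]
        split_ifs <;> simp
      set ψ : C(K, ℝ) := ∑ j, σ j • φ j with hψ
      have hψn : ‖ψ‖ ≤ 1 := by
        rw [ContinuousMap.norm_le _ zero_le_one]
        intro x
        rw [hψ, ContinuousMap.sum_apply, Real.norm_eq_abs]
        refine (Finset.abs_sum_le_sum_abs _ _).trans ?_
        rw [← hφ1 x]
        refine Finset.sum_le_sum fun j _ => ?_
        rw [ContinuousMap.smul_apply, smul_eq_mul, abs_mul, hσ1, one_mul, abs_of_nonneg (hφ0 j x)]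
      have h6 : ∑ j, |Z ε (fun i => β i (φ j))| = ∑ i, sg (ε i) * β i ψ := by
        rw [Finset.sum_congr rfl fun j _ => hσabs j]
        simp only [Z, Finset.mul_sum]
        rw [Finset.sum_comm]
        refine Finset.sum_congr rfl fun i _ => ?_
        rw [hψ, hβsum, Finset.mul_sum]
        refine Finset.sum_congr rfl fun j _ => ?_
        rw [hβsmul]
        ring
      rw [h6]
      refine (cs _ _).trans ?_
      have h7 : ∑ i, sg (ε i) ^ 2 = (n : ℝ) := by
        have : ∀ i, sg (ε i) ^ 2 = 1 := by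
          intro i
          unfold sg
          split_ifs <;> norm_num
        rw [Finset.sum_congr rfl fun i _ => this i]
        simp
      rw [h7]
      refine mul_le_mul_of_nonneg_left ?_ (Real.sqrt_nonneg _)
      refine (hnormb ψ).trans ?_
      exact mul_le_of_le_one_right hb0 hψn
    have h6 : ∑ j, Real.sqrt (∑ i, β i (φ j) ^ 2) ≤ 9 / 4 * (Real.sqrt n * ‖b‖) := by
      have h7 : ∀ j, Real.sqrt (∑ i, β i (φ j) ^ 2) ≤
          9 / 4 * ((∑ ε, |Z ε (fun i => β i (φ j))|) / 2 ^ n) := by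
        intro j
        have := khintchine (fun i => β i (φ j))
        linarith
      refine (Finset.sum_le_sum fun j _ => h7 j).trans ?_
      rw [← Finset.mul_sum, ← Finset.sum_div, Finset.sum_comm]
      refine mul_le_mul_of_nonneg_left ?_ (by norm_num)
      rw [div_le_iff₀ (by positivity)]
      refine (Finset.sum_le_sum fun ε _ => h5 ε).trans ?_
      rw [Finset.sum_const, Finset.card_univ, nsmul_eq_mul]
      simp only [Fintype.card_pi, Fintype.card_bool, Finset.prod_const, Finset.card_univ,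
        Fintype.card_fin]
      push_cast
      rw [mul_comm]
    have h8 : ‖a‖ * ∑ j, Real.sqrt (∑ i, β i (φ j) ^ 2) ≤ ‖a‖ * (9 / 4 * (Real.sqrt n * ‖b‖)) :=
      mul_le_mul_of_nonneg_left h6 ha0
    rw [h3] at h1
    calc (n : ℝ) = _ := h1
      _ ≤ ‖a‖ * (9 / 4 * (Real.sqrt n * ‖b‖)) + n * (‖b‖ * η) := add_le_add (h4.trans h8) h2
      _ = _ := by ring
  have key2 : (n : ℝ) ≤ 9 / 4 * (‖a‖ * ‖b‖) * Real.sqrt n := by
    apply le_of_forall_pos_le_add
    intro δ hδ
    set D : ℝ := n * ‖b‖ + 1 with hD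
    have hD0 : 0 < D := by positivity
    have h1 := key (δ / D) (div_pos hδ hD0)
    have h2 : (n : ℝ) * (‖b‖ * (δ / D)) ≤ δ := by
      have : (n : ℝ) * (‖b‖ * (δ / D)) = (n * ‖b‖) * δ / D := by ring
      rw [this, div_le_iff₀ hD0, hD]
      nlinarith
    linarith
  rcases (Real.sqrt_nonneg (n : ℝ)).eq_or_lt with h0 | h0
  · rw [← h0]; positivity
  · have h1 := Real.mul_self_sqrt (Nat.cast_nonneg n : (0 : ℝ) ≤ n)
    by_contra hcon
    push Not at hcon
    nlinarith

end Pool.Agent.TH327.CKDiam
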