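import Pool.Agent.W684.MADef

/-!
# A colouring consequence of Martin's axiom

If `C i` (`i` in a set of size at most `ℵ₁`) are sets of natural numbers such that every `k + 1`
of them have a finite intersection, then under `MA_{ℵ₁}` there are colourings
`e i : ℕ → Fin (2 k)` such that for `i ≠ j` the colours `e i m` and `e j m` are different for all
but finitely many `m ∈ C i ∩ C j`.
-/

set_option autoImplicit false

namespace Pool.Agent.TH327.MAColor

open Classical Cardinal Set Pool.Agent.W684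

/-- An injective colouring on a small finite set. -/
theorem exists_colour {ι : Type} (s : Finset ι) (K : ℕ) (hK : 0 < K) (hs : s.card ≤ K) :
    ∃ g : ι → Fin K, Set.InjOn g (s : Set ι) := by
  haveI : NeZero K := ⟨hK.ne'⟩
  have h : Nonempty ((s : Set ι) ↪ Fin K) := by
    rw [Function.Embedding.nonempty_iff_card_le]
    simpa using hs
  obtain ⟨f⟩ := h
  refine ⟨fun i => if h : i ∈ s then f ⟨i, h⟩ else 0, ?_⟩
  intro i hi j hj hij
  simp only [Finset.mem_coe] at hi hj
  simp only [hi, hj, dif_pos] at hij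
  have := f.injective hij
  simpa using this

section

variable {ι : Type} (x : ι → ℕ → Bool) (C : ι → Set ℕ) (k : ℕ)

/-- the conditions -/
structure Cond where
  a : Finset ι
  n : ℕ
  e : ι → ℕ → Fin (2 * k)
  small : ∀ m, n ≤ m → (a.filter fun i => m ∈ C i).card ≤ k

variable {C k}

/-- the ordering -/
def Cond.ext (q p : Cond C k) : Prop :=
  p.a ⊆ q.a ∧ p.n ≤ q.n ∧ (∀ i ∈ p.a, ∀ m, m < p.n → q.e i m = p.e i m) ∧
    ∀ m, p.n ≤ m → m < q.n → ∀ i ∈ p.a, ∀ j ∈ p.a, i ≠ j → m ∈ C i → m ∈ C j →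
      q.e i m ≠ q.e j m

instance : Preorder (Cond C k) where
  le q p := q.ext p
  le_refl p := ⟨Finset.Subset.refl _, le_rfl, fun _ _ _ _ => rfl, fun m h1 h2 => by omega⟩
  le_trans r q p hrq hqp := by
    refine ⟨hqp.1.trans hrq.1, hqp.2.1.trans hrq.2.1, ?_, ?_⟩
    · intro i hi m hm
      rw [hrq.2.2.1 i (hqp.1 hi) m (hm.trans_le hqp.2.1), hqp.2.2.1 i hi m hm]
    · intro m h1 h2 i hi j hj hij hmi hmj
      by_cases hm : m < q.n
      · rw [hrq.2.2.1 i (hqp.1 hi) m hm, hrq.2.2.1 j (hqp.1 hj) m hm]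
        exact hqp.2.2.2 m h1 hm i hi j hj hij hmi hmj
      · exact hrq.2.2.2 m (not_lt.1 hm) h2 i (hqp.1 hi) j (hqp.1 hj) hij hmi hmj

theorem Cond.le_def (q p : Cond C k) : q ≤ p ↔ q.ext p := Iff.rfl

variable (hC : ∀ b : Finset ι, b.card = k + 1 → {m | ∀ i ∈ b, m ∈ C i}.Finite)

include hC in
theorem eventually_small (a : Finset ι) :
    ∃ N, ∀ m, N ≤ m → (a.filter fun i => m ∈ C i).card ≤ k := by
  have hfin : (⋃ b ∈ (a.powersetCard (k + 1) : Set (Finset ι)), {m | ∀ i ∈ b, m ∈ C i}).Finite := by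
    apply Set.Finite.biUnion (Finset.finite_toSet _)
    intro b hb
    exact hC b (Finset.mem_powersetCard.1 (Finset.mem_coe.1 hb)).2
  obtain ⟨N, hN⟩ := hfin.bddAbove
  refine ⟨N + 1, fun m hm => ?_⟩
  by_contra hcon
  push Not at hcon
  obtain ⟨b, hb, hbc⟩ := Finset.exists_subset_card_eq (Nat.succ_le_of_lt hcon)
  have : m ∈ (⋃ b ∈ (a.powersetCard (k + 1) : Set (Finset ι)), {m | ∀ i ∈ b, m ∈ C i}) := by
    simp only [Set.mem_iUnion]
    refine ⟨b, ?_, ?_⟩
    · rw [Finset.mem_coe, Finset.mem_powersetCard]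
      exact ⟨hb.trans (Finset.filter_subset _ _), hbc⟩
    · intro i hi
      exact (Finset.mem_filter.1 (hb hi)).2
  have := hN this
  omega

include hC in
theorem Cond.common (hk : 0 < k) (p q : Cond C k) (hn : p.n = q.n)
    (hag : ∀ i ∈ p.a, i ∈ q.a → ∀ m, m < p.n → p.e i m = q.e i m) (a' : Finset ι) (N : ℕ) :
    ∃ r : Cond C k, r ≤ p ∧ r ≤ q ∧ a' ⊆ r.a ∧ N ≤ r.n := by
  obtain ⟨N', hN'⟩ := eventually_small hC (p.a ∪ q.a ∪ a')
  have hg : ∀ m, ∃ g : ι → Fin (2 * k), p.n ≤ m →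
      Set.InjOn g (((p.a ∪ q.a).filter fun i => m ∈ C i : Finset ι) : Set ι) := by
    intro m
    by_cases hm : p.n ≤ m
    · obtain ⟨g, hg⟩ := exists_colour ((p.a ∪ q.a).filter fun i => m ∈ C i) (2 * k) (by omega) (by
        rw [Finset.filter_union]
        refine (Finset.card_union_le _ _).trans ?_
        have h1 := p.small m hm
        have h2 := q.small m (hn ▸ hm)
        omega)
      exact ⟨g, fun _ => hg⟩
    · exact ⟨fun _ => ⟨0, by omega⟩, fun h => absurd h hm⟩
  choose g hg using hg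
  refine ⟨⟨p.a ∪ q.a ∪ a', max (max N N') p.n,
    fun i m => if m < p.n then (if i ∈ p.a then p.e i m else q.e i m) else g m i, ?_⟩, ?_, ?_, ?_,
    ?_⟩
  · intro m hm
    exact hN' m (le_trans (le_trans (le_max_right _ _) (le_max_left _ _)) hm)
  · refine ⟨?_, le_max_right _ _, ?_, ?_⟩
    · exact (Finset.subset_union_left).trans Finset.subset_union_left
    · intro i hi m hm
      simp [hm, hi]
    · intro m h1 h2 i hi j hj hij hmi hmj h
      simp only [not_lt.2 h1, if_false] at h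
      apply hij
      apply hg m h1 _ _ h
      · simp [hi, hmi]
      · simp [hj, hmj]
  · refine ⟨?_, ?_, ?_, ?_⟩
    · exact (Finset.subset_union_right).trans Finset.subset_union_left
    · rw [← hn]; exact le_max_right _ _
    · intro i hi m hm
      rw [← hn] at hm
      simp only [hm, if_true]
      by_cases hip : i ∈ p.a
      · simp only [hip, if_true]
        exact hag i hip hi m hm
      · simp only [hip, if_false]
    · intro m h1 h2 i hi j hj hij hmi hmj h
      rw [← hn] at h1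
      simp only [not_lt.2 h1, if_false] at h
      apply hij
      apply hg m h1 _ _ h
      · simp [hi, hmi]
      · simp [hj, hmj]
  · exact Finset.subset_union_right
  · exact (le_max_left _ _).trans (le_max_left _ _)

/-- prefix of a branch -/
def pre (y : ℕ → Bool) (l : ℕ) : List Bool := (List.range l).map y

theorem pre_inj {y z : ℕ → Bool} {l : ℕ} (h : pre y l = pre z l) : ∀ i, i < l → y i = z i := by
  intro i hi
  have h1 : (pre y l)[i]? = (pre z l)[i]? := by rw [h]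
  simpa [pre, hi] using h1

theorem exists_sep (hx : Function.Injective x) (a : Finset ι) :
    ∃ l, ∀ i ∈ a, ∀ j ∈ a, pre (x i) l = pre (x j) l → i = j := by
  have h : ∀ i j, ∃ l, i ≠ j → x i l ≠ x j l := by
    intro i j
    by_cases hij : i = j
    · exact ⟨0, fun h => absurd hij h⟩
    · have : x i ≠ x j := fun h => hij (hx h)
      obtain ⟨l, hl⟩ := Function.ne_iff.1 this
      exact ⟨l, fun _ => hl⟩
  choose l hl using h
  refine ⟨((a ×ˢ a).sup fun p => l p.1 p.2) + 1, ?_⟩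
  intro i hi j hj hij
  by_contra hne
  have hle : l i j ≤ (a ×ˢ a).sup fun p => l p.1 p.2 :=
    Finset.le_sup (f := fun p : ι × ι => l p.1 p.2) (b := (i, j)) (by simp [hi, hj])
  exact hl i j hne (pre_inj hij (l i j) (by omega))

/-- the code of a condition -/
noncomputable def code (l : ℕ) (p : Cond C k) : Finset (List Bool × List (Fin (2 * k))) :=
  p.a.image fun i => (pre (x i) l, (List.range p.n).map (p.e i))

include hC in
theorem ccc (hk : 0 < k) (hx : Function.Injective x) : IsCCC (Cond C k) := by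
  intro A hA
  choose l hl using fun p : Cond C k => exists_sep x hx p.a
  have hinj : Set.InjOn (fun p : Cond C k => (p.n, l p, code x (l p) p)) A := by
    intro p hp q hq hpq
    by_contra hne
    apply hA p hp q hq hne
    simp only [Prod.mk.injEq] at hpq
    obtain ⟨h1, h2, h3⟩ := hpq
    obtain ⟨r, hrp, hrq, -, -⟩ := Cond.common hC hk p q h1 (by
      intro i hip hiq m hm
      have hmem : (pre (x i) (l p), (List.range p.n).map (p.e i)) ∈ code x (l q) q := by
        rw [← h3]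
        exact Finset.mem_image_of_mem (fun i => (pre (x i) (l p), (List.range p.n).map (p.e i))) hip
      obtain ⟨j, hj, hji⟩ := Finset.mem_image.1 hmem
      simp only [Prod.mk.injEq] at hji
      have hij : j = i := by
        apply hl q j hj i hiq
        rw [hji.1, h2]
      subst hij
      have h4 := hji.2
      rw [← h1] at h4
      have h5 : ((List.range p.n).map (q.e j))[m]? = ((List.range p.n).map (p.e j))[m]? := by
        rw [h4]
      have h6 : q.e j m = p.e j m := by simpa [hm] using h5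
      exact h6.symm) ∅ 0
    exact ⟨r, hrp, hrq⟩
  exact Set.countable_of_injective_of_countable_image hinj (Set.to_countable _)

include hC in
theorem main (hMA : MartinAxiomAleph1) (hk : 0 < k) (hx : Function.Injective x) (hι : #ι ≤ ℵ₁) :
    ∃ e : ι → ℕ → Fin (2 * k), ∀ i j, i ≠ j → {m | m ∈ C i ∧ m ∈ C j ∧ e i m = e j m}.Finite := by
  haveI : Nonempty (Cond C k) := ⟨⟨∅, 0, fun _ _ => ⟨0, by omega⟩, by simp⟩⟩
  let D : ι ⊕ ℕ → Set (Cond C k) := Sum.elim (fun i => {p | i ∈ p.a}) (fun N => {p | N ≤ p.n})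
  have hD : ∀ s ∈ Set.range D, ∀ p : Cond C k, ∃ q ∈ s, q ≤ p := by
    rintro _ ⟨s, rfl⟩ p
    rcases s with i | N
    · obtain ⟨r, h1, -, h3, -⟩ := Cond.common hC hk p p rfl (fun _ _ _ _ _ => rfl) {i} 0
      exact ⟨r, h3 (Finset.mem_singleton_self i), h1⟩
    · obtain ⟨r, h1, -, -, h4⟩ := Cond.common hC hk p p rfl (fun _ _ _ _ _ => rfl) ∅ N
      exact ⟨r, h4, h1⟩
  have hcard : #(Set.range D) ≤ ℵ₁ := by
    refine Cardinal.mk_range_le.trans ?_
    rw [Cardinal.mk_sum]
    simp only [Cardinal.lift_id, Cardinal.mk_nat]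
    exact Cardinal.add_le_of_le (Cardinal.aleph0_le_aleph 1) hι (Cardinal.aleph0_le_aleph 1)
  obtain ⟨G, hGne, hGup, hGdir, hGD⟩ := hMA (Cond C k) (ccc x hC hk hx) (Set.range D) hcard hD
  have hgi : ∀ i, ∃ q ∈ G, i ∈ q.a := by
    intro i
    obtain ⟨q, hq, hq'⟩ := hGD _ ⟨Sum.inl i, rfl⟩
    exact ⟨q, hq, hq'⟩
  have hgN : ∀ N, ∃ q ∈ G, N ≤ q.n := by
    intro i
    obtain ⟨q, hq, hq'⟩ := hGD _ ⟨Sum.inr i, rfl⟩
    exact ⟨q, hq, hq'⟩
  have hval : ∀ i m, ∃ q ∈ G, i ∈ q.a ∧ m < q.n := by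
    intro i m
    obtain ⟨q, hq, hqi⟩ := hgi i
    obtain ⟨q', hq', hqm⟩ := hgN (m + 1)
    obtain ⟨r, hr, hrq, hrq'⟩ := hGdir q hq q' hq'
    exact ⟨r, hr, hrq.1 hqi, lt_of_lt_of_le (Nat.lt_of_succ_le hqm) hrq'.2.1⟩
  choose Q hQG hQi hQm using hval
  have hwell : ∀ i m, ∀ q ∈ G, i ∈ q.a → m < q.n → (Q i m).e i m = q.e i m := by
    intro i m q hq hiq hmq
    obtain ⟨r, hr, hrq, hrq'⟩ := hGdir q hq (Q i m) (hQG i m)
    rw [← hrq.2.2.1 i hiq m hmq, ← hrq'.2.2.1 i (hQi i m) m (hQm i m)]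
  refine ⟨fun i m => (Q i m).e i m, fun i j hij => ?_⟩
  obtain ⟨q1, hq1, hi1⟩ := hgi i
  obtain ⟨q2, hq2, hi2⟩ := hgi j
  obtain ⟨q, hq, hqq1, hqq2⟩ := hGdir q1 hq1 q2 hq2
  have hiq := hqq1.1 hi1
  have hjq := hqq2.1 hi2
  apply (Set.finite_lt_nat q.n).subset
  rintro m ⟨hmi, hmj, hm⟩
  by_contra hcon
  simp only [Set.mem_ofPred_eq, not_lt] at hcon
  obtain ⟨q3, hq3, hn3⟩ := hgN (m + 1)
  obtain ⟨r, hr, hrq, hrq3⟩ := hGdir q hq q3 hq3
  have hmr : m < r.n := lt_of_lt_of_le (Nat.lt_of_succ_le hn3) hrq3.2.1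
  have h1 := hwell i m r hr (hrq.1 hiq) hmr
  have h2 := hwell j m r hr (hrq.1 hjq) hmr
  exact hrq.2.2.2 m hcon hmr i hiq j hjq hij hmi hmj (by rw [← h1, ← h2]; exact hm)

end

end Pool.Agent.TH327.MAColor
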