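import Pool.Agent.TH327.MAColor

/-!
# Nowhere dense configurations in `C(ℕ*)` and Martin's axiom

`NStar` is `ℕ* = βℕ ∖ ℕ`, with `βℕ` the space of ultrafilters on `ℕ`.
-/

set_option autoImplicit false

namespace Pool.Agent.TH327.NStarCCC

open Classical Cardinal Set Filter Topology Pool.Agent.W684
open scoped BoundedContinuousFunction

/-- `ℕ* = βℕ ∖ ℕ`: the space of the ultrafilters on `ℕ` which are not principal. -/
abbrev NStar : Type := {p : Ultrafilter ℕ // p ∉ Set.range (pure : ℕ → Ultrafilter ℕ)}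

theorem NStar.le_cofinite (p : NStar) : (p.1 : Filter ℕ) ≤ cofinite := by
  rcases p.1.le_cofinite_or_eq_pure with h | ⟨n, h⟩
  · exact h
  · exact absurd ⟨n, h.symm⟩ p.2

theorem NStar.infinite (p : NStar) {s : Set ℕ} (hs : s ∈ p.1) : s.Infinite := by
  intro hfin
  have : sᶜ ∈ p.1 := p.le_cofinite (by rwa [mem_cofinite, compl_compl])
  exact (Ultrafilter.compl_mem_iff_notMem.1 this) hs

theorem exists_nstar {s : Set ℕ} (hs : s.Infinite) : ∃ p : NStar, s ∈ p.1 := by
  have : (cofinite ⊓ 𝓟 s).NeBot := by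
    rw [inf_principal_neBot_iff]
    intro t ht
    have ht' : tᶜ.Finite := by rwa [mem_cofinite] at ht
    obtain ⟨n, hn, hn'⟩ := (hs.sdiff ht').nonempty
    exact ⟨n, by simpa using hn', hn⟩
  have h1 := Ultrafilter.of_le (cofinite ⊓ 𝓟 s)
  refine ⟨⟨Ultrafilter.of (cofinite ⊓ 𝓟 s), ?_⟩, ?_⟩
  · rintro ⟨n, hn⟩
    have h2 : ({n}ᶜ : Set ℕ) ∈ Ultrafilter.of (cofinite ⊓ 𝓟 s) :=
      h1 (mem_inf_of_left (by simp [mem_cofinite]))
    rw [← hn] at h2
    have : n ∈ ({n}ᶜ : Set ℕ) := h2
    simp at this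
  · exact h1 (mem_inf_of_right (mem_principal_self s))

instance : CompactSpace NStar := by
  apply (isCompact_iff_compactSpace
    (s := {p : Ultrafilter ℕ | p ∉ Set.range (pure : ℕ → Ultrafilter ℕ)})).1
  apply IsClosed.isCompact
  have : IsOpen (Set.range (pure : ℕ → Ultrafilter ℕ)) := by
    have h : Set.range (pure : ℕ → Ultrafilter ℕ) = ⋃ n : ℕ, {p : Ultrafilter ℕ | {n} ∈ p} := by
      ext p
      simp only [Set.mem_range, Set.mem_iUnion, Set.mem_ofPred_eq]
      constructor
      · rintro ⟨n, rfl⟩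
        exact ⟨n, by simp⟩
      · rintro ⟨n, hn⟩
        refine ⟨n, ?_⟩
        have h2 : (p : Filter ℕ) ≤ pure n := by
          rw [← Filter.principal_singleton, le_principal_iff]; exact hn
        exact (Ultrafilter.coe_le_coe.1 h2).symm
    rw [h]
    exact isOpen_iUnion fun n => ultrafilter_isOpen_basic {n}
  exact this.isClosed_compl

/-- The clopen set `A* = cl(A) ∖ A` in `ℕ*`, for `A ⊆ ℕ`. -/
def remainder (A : Set ℕ) : Set NStar := {p | A ∈ p.1}

theorem isClopen_remainder (A : Set ℕ) : IsClopen (remainder A) :=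
  ⟨(ultrafilter_isClosed_basic A).preimage continuous_subtype_val,
    (ultrafilter_isOpen_basic A).preimage continuous_subtype_val⟩

/-- the values of `f`, in a compact interval -/
def toIcc (f : ℕ →ᵇ ℝ) (n : ℕ) : Set.Icc (-‖f‖) ‖f‖ :=
  ⟨f n, abs_le.1 (f.norm_coe_le_norm n)⟩

/-- the extension of `f` to the space of ultrafilters -/
noncomputable def lext (f : ℕ →ᵇ ℝ) (p : Ultrafilter ℕ) : ℝ :=
  (Ultrafilter.extend (toIcc f) p).1

theorem continuous_lext (f : ℕ →ᵇ ℝ) : Continuous (lext f) :=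
  continuous_subtype_val.comp (continuous_ultrafilter_extend (toIcc f))

/-- The limit of a bounded sequence along an ultrafilter. -/
theorem exists_lim (f : ℕ →ᵇ ℝ) (p : Ultrafilter ℕ) :
    Tendsto f p (𝓝 (lext f p)) := by
  have h : ↑(p.map (toIcc f)) ≤ 𝓝 (Ultrafilter.extend (toIcc f) p) :=
    ultrafilter_extend_eq_iff.1 rfl
  have h2 : Tendsto (toIcc f) p (𝓝 (Ultrafilter.extend (toIcc f) p)) := h
  exact (continuous_subtype_val.tendsto _).comp h2

theorem limUnder_eq (f : ℕ →ᵇ ℝ) (p : Ultrafilter ℕ) :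
    limUnder (p : Filter ℕ) f = lext f p :=
  (exists_lim f p).limUnder_eq

/-- For a bounded sequence `f`, the function `f*` on `ℕ*`: its value at `p` is the limit of `f`
along the ultrafilter `p`, so that it is the restriction to `ℕ*` of the continuous extension of
`f` to `βℕ`. -/
noncomputable def star (f : ℕ →ᵇ ℝ) : C(NStar, ℝ) where
  toFun p := limUnder (p.1 : Filter ℕ) f
  continuous_toFun := by
    have : (fun p : NStar => limUnder (p.1 : Filter ℕ) f) = fun p : NStar => lext f p.1 := by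
      funext p
      exact limUnder_eq f p.1
    rw [this]
    exact (continuous_lext f).comp continuous_subtype_val

theorem star_tendsto (f : ℕ →ᵇ ℝ) (p : NStar) : Tendsto f p.1 (𝓝 (star f p)) := by
  have : star f p = lext f p.1 := limUnder_eq f p.1
  rw [this]
  exact exists_lim f p.1

/-- `(T, A, F, ψ)` satisfies all the conditions in the definition of a nowhere dense
configuration, except that the bounded linear operator `T` is arbitrary. -/
structure IsConfiguration (T : C(NStar, ℝ) →L[ℝ] C(NStar, ℝ)) (A : Set ℕ) (F : Set NStar)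
    (ψ : F → NStar) : Prop where
  infinite : A.Infinite
  isClosed : IsClosed F
  nowhereDense : IsNowhereDense F
  continuous : Continuous ψ
  range_eq : Set.range ψ = remainder A
  irreducible : ∀ H : Set F, IsClosed H → ψ '' H = remainder A → H = Set.univ
  eq_on : ∀ f : ℕ →ᵇ ℝ, (∀ n, n ∉ A → f n = 0) → ∀ q : F, T (star f) q = star f (ψ q)

/-- `F` is c.c.c. over Fin: in every family of pairwise disjoint clopen subsets of `ℕ*` all but
countably many members are disjoint from `F`. -/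
def CCCOverFin (F : Set NStar) : Prop :=
  ∀ 𝒰 : Set (Set NStar), (∀ U ∈ 𝒰, IsClopen U) → 𝒰.PairwiseDisjoint id →
    {U | U ∈ 𝒰 ∧ (U ∩ F).Nonempty}.Countable

/-- the indicator function of a set, as a bounded sequence -/
noncomputable def ind (B : Set ℕ) : ℕ →ᵇ ℝ :=
  BoundedContinuousFunction.ofNormedAddCommGroup (B.indicator fun _ => (1 : ℝ))
    continuous_of_discreteTopology 1 (by
      intro n
      by_cases h : n ∈ B <;> simp [h])

theorem ind_of_mem {B : Set ℕ} {n : ℕ} (h : n ∈ B) : ind B n = 1 := by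
  simp [ind, h]

theorem ind_of_notMem {B : Set ℕ} {n : ℕ} (h : n ∉ B) : ind B n = 0 := by
  simp [ind, h]

theorem star_ind_of_mem {B : Set ℕ} {p : NStar} (h : B ∈ p.1) : star (ind B) p = 1 := by
  refine tendsto_nhds_unique (star_tendsto (ind B) p) ?_
  refine Tendsto.congr' (f₁ := fun _ => (1 : ℝ)) ?_ tendsto_const_nhds
  filter_upwards [h] with n hn
  exact (ind_of_mem hn).symm

theorem star_ind_of_notMem {B : Set ℕ} {p : NStar} (h : B ∉ p.1) : star (ind B) p = 0 := by
  refine tendsto_nhds_unique (star_tendsto (ind B) p) ?_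
  refine Tendsto.congr' (f₁ := fun _ => (0 : ℝ)) ?_ tendsto_const_nhds
  filter_upwards [Ultrafilter.compl_mem_iff_notMem.2 h] with n hn
  exact (ind_of_notMem hn).symm

/-- an open set around a point of `ℕ*` contains a basic clopen set -/
theorem exists_basic {U : Set NStar} (hU : IsOpen U) {p : NStar} (hp : p ∈ U) :
    ∃ C : Set ℕ, C ∈ p.1 ∧ ∀ q : NStar, C ∈ q.1 → q ∈ U := by
  obtain ⟨V, hV, rfl⟩ := isOpen_induced_iff.1 hU
  obtain ⟨W, ⟨C, rfl⟩, hpC, hC⟩ := ultrafilterBasis_is_basis.exists_subset_of_mem_open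
    (show p.1 ∈ V from hp) hV
  exact ⟨C, hpC, fun q hq => hC hq⟩

/-- an almost disjoint family inside `A` indexed by branches -/
noncomputable def branchSet (A : Set ℕ) (y : ℕ → Bool) : Set ℕ :=
  Set.range fun l => Nat.nth (· ∈ A) (Encodable.encode (MAColor.pre y l))

theorem pre_length (y : ℕ → Bool) (l : ℕ) : (MAColor.pre y l).length = l := by
  simp [MAColor.pre]

theorem branchSet_subset {A : Set ℕ} (hA : A.Infinite) (y : ℕ → Bool) : branchSet A y ⊆ A := by
  rintro _ ⟨l, rfl⟩
  exact Nat.nth_mem_of_infinite (p := (· ∈ A)) hA _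

theorem nth_inj {A : Set ℕ} (hA : A.Infinite) {y z : ℕ → Bool} {l m : ℕ}
    (h : Nat.nth (· ∈ A) (Encodable.encode (MAColor.pre y l)) =
      Nat.nth (· ∈ A) (Encodable.encode (MAColor.pre z m))) :
    l = m ∧ MAColor.pre y l = MAColor.pre z m := by
  have h1 := Encodable.encode_injective (Nat.nth_injective (p := (· ∈ A)) hA h)
  refine ⟨?_, h1⟩
  rw [← pre_length y l, ← pre_length z m, h1]

theorem branchSet_infinite {A : Set ℕ} (hA : A.Infinite) (y : ℕ → Bool) :
    (branchSet A y).Infinite :=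
  Set.infinite_range_of_injective fun _ _ h => (nth_inj hA h).1

theorem branchSet_inter {A : Set ℕ} (hA : A.Infinite) {y z : ℕ → Bool} (hyz : y ≠ z) :
    (branchSet A y ∩ branchSet A z).Finite := by
  obtain ⟨i, hi⟩ := Function.ne_iff.1 hyz
  apply ((Set.finite_le_nat i).image
    fun l => Nat.nth (· ∈ A) (Encodable.encode (MAColor.pre y l))).subset
  rintro _ ⟨⟨l, rfl⟩, ⟨m, hm⟩⟩
  refine ⟨l, ?_, rfl⟩
  obtain ⟨h1, h2⟩ := nth_inj hA hm
  subst h1
  by_contra hcon
  simp only [Set.mem_ofPred_eq, not_le] at hcon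
  exact hi (MAColor.pre_inj h2 i hcon).symm

theorem exists_index : ∃ S : Set (ℕ → Bool), #S = ℵ₁ := by
  have h : ℵ₁ ≤ #(ℕ → Bool) := by
    have : #(ℕ → Bool) = 𝔠 := by simp
    rw [this]
    exact Cardinal.aleph_one_le_continuum
  exact Cardinal.le_mk_iff_exists_set.1 h

/-- a finite partition of a member of an ultrafilter -/
theorem exists_piece {K : ℕ} (p : Ultrafilter ℕ) {C : Set ℕ} (hC : C ∈ p) (e : ℕ → Fin K) :
    ∃ c, {m | m ∈ C ∧ e m = c} ∈ p := by
  by_contra hcon
  push Not at hcon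
  have h : ∀ c, {m | m ∈ C ∧ e m = c}ᶜ ∈ p := fun c =>
    Ultrafilter.compl_mem_iff_notMem.2 (hcon c)
  have h2 : (⋂ c, {m | m ∈ C ∧ e m = c}ᶜ) ∈ (p : Filter ℕ) := (Filter.iInter_mem).2 h
  have h3 : (C ∩ ⋂ c, {m | m ∈ C ∧ e m = c}ᶜ) ∈ (p : Filter ℕ) := Filter.inter_mem hC h2
  have h4 : (C ∩ ⋂ c, {m | m ∈ C ∧ e m = c}ᶜ) = ∅ := by
    ext m
    simp only [Set.mem_inter_iff, Set.mem_iInter, Set.mem_compl_iff, Set.mem_ofPred_eq,
      Set.mem_empty_iff_false, iff_false]
    rintro ⟨hm, hm'⟩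
    exact hm' (e m) ⟨hm, rfl⟩
  rw [h4] at h3
  exact Filter.empty_notMem _ h3

/-- The main theorem: under `MA_{ℵ₁}` the set `F` of a configuration is not c.c.c. over Fin. -/
theorem main (hMA : MartinAxiomAleph1) {T : C(NStar, ℝ) →L[ℝ] C(NStar, ℝ)} {A : Set ℕ}
    {F : Set NStar} {ψ : F → NStar} (h : IsConfiguration T A F ψ) : ¬ CCCOverFin F := by
  intro hF
  obtain ⟨S, hS⟩ := exists_index
  let B : S → Set ℕ := fun y => branchSet A y.1
  have hBinf : ∀ y, (B y).Infinite := fun y => branchSet_infinite h.infinite y.1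
  have hBA : ∀ y, B y ⊆ A := fun y => branchSet_subset h.infinite y.1
  have hBB : ∀ y z, y ≠ z → (B y ∩ B z).Finite := fun y z hyz =>
    branchSet_inter h.infinite (fun h => hyz (Subtype.ext h))
  -- the points of `F`
  have hp : ∀ y : S, ∃ p : F, B y ∈ (ψ p).1 := by
    intro y
    obtain ⟨q, hq⟩ := exists_nstar (hBinf y)
    have : q ∈ Set.range ψ := by
      rw [h.range_eq]
      exact Filter.mem_of_superset hq (hBA y)
    obtain ⟨p, rfl⟩ := this
    exact ⟨p, hq⟩
  choose p hp using hp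
  have hTp : ∀ y, T (star (ind (B y))) (p y) = 1 := by
    intro y
    rw [h.eq_on (ind (B y)) (fun n hn => ind_of_notMem fun hn' => hn (hBA y hn')) (p y)]
    exact star_ind_of_mem (hp y)
  have hC : ∀ y, ∃ C : Set ℕ, C ∈ (p y).1.1 ∧
      ∀ q : NStar, C ∈ q.1 → 1 / 2 < T (star (ind (B y))) q := by
    intro y
    have hopen : IsOpen {q : NStar | 1 / 2 < T (star (ind (B y))) q} :=
      isOpen_lt continuous_const (T (star (ind (B y)))).continuous
    have hmem : (p y).1 ∈ {q : NStar | 1 / 2 < T (star (ind (B y))) q} := by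
      rw [Set.mem_ofPred_eq, hTp y]
      norm_num
    exact exists_basic hopen hmem
  choose C hCp hCT using hC
  obtain ⟨k', hk'⟩ := exists_nat_ge (2 * ‖T‖)
  obtain ⟨k, hk⟩ : ∃ k : ℕ, k = k' + 1 := ⟨_, rfl⟩
  have hkT : 2 * ‖T‖ ≤ k := by
    rw [hk]; push_cast; linarith
  -- any `k + 1` of the sets `C y` have a finite intersection
  have hfin : ∀ b : Finset S, b.card = k + 1 → {m | ∀ y ∈ b, m ∈ C y}.Finite := by
    intro b hb
    by_contra hinf
    obtain ⟨q, hq⟩ := exists_nstar (show ({m | ∀ y ∈ b, m ∈ C y} : Set ℕ).Infinite from hinf)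
    have hqC : ∀ y ∈ b, C y ∈ q.1 := fun y hy =>
      Filter.mem_of_superset hq fun m hm => hm y hy
    have hnorm : ‖∑ y ∈ b, star (ind (B y))‖ ≤ 1 := by
      rw [ContinuousMap.norm_le _ zero_le_one]
      intro r
      rw [ContinuousMap.sum_apply]
      by_cases hr : ∃ y ∈ b, B y ∈ r.1
      · obtain ⟨y, hy, hyr⟩ := hr
        rw [Finset.sum_eq_single_of_mem y hy, star_ind_of_mem hyr]
        · simp
        · intro z _ hzy
          apply star_ind_of_notMem
          intro hzr
          exact r.infinite (Filter.inter_mem hyr hzr) (hBB y z (Ne.symm hzy))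
      · push Not at hr
        rw [Finset.sum_eq_zero fun y hy => star_ind_of_notMem (hr y hy)]
        simp
    have h1 : ‖T (∑ y ∈ b, star (ind (B y)))‖ ≤ ‖T‖ := by
      refine (T.le_opNorm _).trans ?_
      nlinarith [norm_nonneg T]
    have h2 : ‖T (∑ y ∈ b, star (ind (B y))) q‖ ≤ ‖T‖ :=
      (ContinuousMap.norm_coe_le_norm _ q).trans h1
    have h3 : ((k : ℝ) + 1) / 2 ≤ T (∑ y ∈ b, star (ind (B y))) q := by
      rw [map_sum, ContinuousMap.sum_apply]
      calc ((k : ℝ) + 1) / 2 = ∑ _y ∈ b, (1 / 2 : ℝ) := by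
            rw [Finset.sum_const, hb, nsmul_eq_mul, Nat.cast_add, Nat.cast_one]; ring
        _ ≤ _ := Finset.sum_le_sum fun y hy => (hCT y q (hqC y hy)).le
    have h4 := (le_abs_self _).trans h2
    linarith
  obtain ⟨e, he⟩ := MAColor.main (x := fun y : S => y.1) (C := C) (k := k) hfin hMA (by omega)
    Subtype.val_injective hS.le
  have hpiece : ∀ y, ∃ c, {m | m ∈ C y ∧ e y m = c} ∈ (p y).1.1 := fun y =>
    exists_piece _ (hCp y) (e y)
  choose c hc using hpiece
  -- a colour which is attained uncountably often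
  have hunc : ∃ c₀, ¬ {y : S | c y = c₀}.Countable := by
    by_contra hcon
    push Not at hcon
    have : (⋃ c₀, {y : S | c y = c₀}).Countable := Set.countable_iUnion hcon
    have h2 : (⋃ c₀, {y : S | c y = c₀}) = Set.univ := by
      ext y; simp
    rw [h2, Set.countable_univ_iff, ← Cardinal.mk_le_aleph0_iff, hS] at this
    exact absurd this (not_le.2 Cardinal.aleph0_lt_aleph_one)
  obtain ⟨c₀, hc₀⟩ := hunc
  let E : S → Set ℕ := fun y => {m | m ∈ C y ∧ e y m = c₀}
  have hEp : ∀ y, c y = c₀ → E y ∈ (p y).1.1 := by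
    intro y hy
    have := hc y
    rw [hy] at this
    exact this
  have hEE : ∀ y z, y ≠ z → (E y ∩ E z).Finite := by
    intro y z hyz
    apply (he y z hyz).subset
    rintro m ⟨⟨h1, h2⟩, h3, h4⟩
    exact ⟨h1, h3, h2.trans h4.symm⟩
  have hdisj : ∀ y z, y ≠ z → Disjoint (remainder (E y)) (remainder (E z)) := by
    intro y z hyz
    rw [Set.disjoint_left]
    intro r hy hz
    exact r.infinite (Filter.inter_mem hy hz) (hEE y z hyz)
  have hcount := hF ((fun y => remainder (E y)) '' {y | c y = c₀}) (by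
      rintro _ ⟨y, -, rfl⟩
      exact isClopen_remainder _) (by
      rintro _ ⟨y, -, rfl⟩ _ ⟨z, -, rfl⟩ hne
      exact hdisj y z (fun h => hne (by rw [h])))
  apply hc₀
  apply Set.countable_of_injective_of_countable_image (f := fun y => remainder (E y))
  · intro y hy z hz hyz
    by_contra hne
    have h1 := hdisj y z hne
    simp only at hyz
    rw [hyz, disjoint_self, Set.bot_eq_empty] at h1
    have h2 : (p z).1 ∈ remainder (E z) := hEp z hz
    rw [h1] at h2
    exact h2
  · apply hcount.mono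
    rintro _ ⟨y, hy, rfl⟩
    exact ⟨⟨y, hy, rfl⟩, (p y).1, hEp y hy, (p y).2⟩

end Pool.Agent.TH327.NStarCCC
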